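import Pool.Agent.Helper95.IT.Stmts
import Pool.Agent.Helper57.LH.Gam

/-!
# Project IT (MP_a499ba_nt), block GA: Stirling's upper bound in a strip, by Phragmen-Lindelof
-/

set_option autoImplicit false

namespace Pool.Agent.Helper51.IT

open Complex Filter Topology MeasureTheory

theorem norm_Gamma_le51 {s : ℂ} (hs : 0 < s.re) : ‖Complex.Gamma s‖ ≤ Real.Gamma s.re := by
  rw [Complex.Gamma_eq_integral hs, Real.Gamma_eq_integral hs]
  unfold Complex.GammaIntegral
  refine (norm_integral_le_integral_norm _).trans (le_of_eq ?_)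
  refine setIntegral_congr_fun measurableSet_Ioi fun x hx => ?_
  have hx0 : (0 : ℝ) < x := hx
  simp only [norm_mul, Complex.norm_real, Real.norm_eq_abs, abs_of_pos (Real.exp_pos _)]
  rw [Complex.norm_cpow_eq_rpow_re_of_pos hx0]
  simp

/-- the angle of a point of the right half plane -/
theorem arg_low {a y : ℝ} (ha : 0 < a) : Real.pi * |y| / 2 - a ≤ y * Complex.arg ((a : ℂ) + I * y) ∧
    y * Complex.arg ((a : ℂ) + I * y) ≤ Real.pi * |y| / 2 := by
  have hre : ((a : ℂ) + I * y).re = a := by simp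
  have him : ((a : ℂ) + I * y).im = y := by simp
  have h1 : |Complex.arg ((a : ℂ) + I * y)| < Real.pi / 2 := by
    rw [Complex.abs_arg_lt_pi_div_two_iff]
    left
    rw [hre]; exact ha
  have h2 : Complex.arg ((a : ℂ) + I * y) = Real.arctan (y / a) := by
    have h3 := Complex.tan_arg ((a : ℂ) + I * y)
    rw [hre, him] at h3
    rw [← h3, Real.arctan_tan (abs_lt.1 h1).1 (abs_lt.1 h1).2]
  have key : ∀ z : ℝ, 0 < z → Real.pi / 2 * z - a ≤ z * Real.arctan (z / a) := by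
    intro z hz
    have h4 : Real.arctan (z / a) = Real.pi / 2 - Real.arctan (a / z) := by
      rw [← Real.arctan_inv_of_pos (by positivity), inv_div]
    have h5 : Real.arctan (a / z) ≤ a / z := by
      have h6 := Real.le_tan (Real.arctan_nonneg.2 (show 0 ≤ a / z by positivity)) (Real.arctan_lt_pi_div_two _)
      rwa [Real.tan_arctan] at h6
    rw [h4]
    have h7 : z * (a / z) = a := by field_simp
    nlinarith
  constructor
  · rw [h2]
    rcases lt_trichotomy y 0 with hy | hy | hy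
    · have := key (-y) (by linarith)
      rw [neg_div, Real.arctan_neg] at this
      rw [abs_of_neg hy]
      linarith
    · rw [hy]; simp; exact ha.le
    · have := key y hy
      rw [abs_of_pos hy]
      linarith
  · have h3 := abs_lt.1 h1
    calc y * Complex.arg ((a : ℂ) + I * y) ≤ |y * Complex.arg ((a : ℂ) + I * y)| := le_abs_self _
      _ = |y| * |Complex.arg ((a : ℂ) + I * y)| := abs_mul _ _
      _ ≤ |y| * (Real.pi / 2) := mul_le_mul_of_nonneg_left h1.le (abs_nonneg _)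
      _ = Real.pi * |y| / 2 := by ring

/-- the bound on the line `Re = 1/2` -/
theorem half_le (y : ℝ) : ‖Complex.Gamma (1 / 2 + I * y)‖ ≤ 3 * Real.exp (-(Real.pi * |y| / 2)) := by
  have h1 := Pool.Agent.Helper57.LH.norm_Gamma_half_sq y
  have h2 : Real.exp (Real.pi * |y|) / 2 ≤ Real.cosh (Real.pi * y) := by
    rw [← Real.cosh_abs, abs_mul, abs_of_pos Real.pi_pos, Real.cosh_eq]
    have := Real.exp_pos (-(Real.pi * |y|))
    linarith
  have h3 : ‖Complex.Gamma (1 / 2 + I * y)‖ ^ 2 ≤ (3 * Real.exp (-(Real.pi * |y| / 2))) ^ 2 := by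
    rw [h1, mul_pow, ← Real.exp_nat_mul]
    have e1 : ((2 : ℕ) : ℝ) * -(Real.pi * |y| / 2) = -(Real.pi * |y|) := by push_cast; ring
    rw [e1, div_le_iff₀ (Real.cosh_pos _), Real.exp_neg]
    have h4 := Real.exp_pos (Real.pi * |y|)
    have h5 := Real.pi_le_four
    calc Real.pi ≤ 3 ^ 2 / 2 := by linarith
      _ = 3 ^ 2 * (Real.exp (Real.pi * |y|))⁻¹ * (Real.exp (Real.pi * |y|) / 2) := by field_simp
      _ ≤ 3 ^ 2 * (Real.exp (Real.pi * |y|))⁻¹ * Real.cosh (Real.pi * y) := by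
          apply mul_le_mul_of_nonneg_left h2
          positivity
  exact (sq_le_sq₀ (norm_nonneg _) (by positivity)).1 h3

/-- the auxiliary function -/
noncomputable def Ga (z : ℂ) : ℂ := Complex.Gamma (z + 1 / 2) * (z + 1) ^ (-z)

theorem norm_pow_aux {z : ℂ} (hz : -1 < z.re) :
    ‖(z + 1) ^ (-z)‖ = ‖z + 1‖ ^ (-z.re) * Real.exp (z.im * Complex.arg ((z.re + 1 : ℝ) + I * z.im)) := by
  have h0 : z + 1 ≠ 0 := by
    intro h
    have := congrArg Complex.re h
    simp at this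
    linarith
  have h1 : z + 1 = ((z.re + 1 : ℝ) : ℂ) + I * z.im := by
    apply Complex.ext <;> simp
  rw [Complex.norm_cpow_of_ne_zero h0, Complex.neg_re, Complex.neg_im, div_eq_mul_inv, ← Real.exp_neg]
  congr 2
  rw [← h1]
  ring

theorem Ga_zero (z : ℂ) (hz : z.re = 0) : ‖Ga z‖ ≤ 3 := by
  unfold Ga
  rw [norm_mul, norm_pow_aux (by rw [hz]; norm_num), hz, neg_zero, Real.rpow_zero, one_mul]
  have h1 : z + 1 / 2 = 1 / 2 + I * (z.im : ℂ) := by
    apply Complex.ext <;> simp [hz]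
  rw [h1]
  have h2 := half_le z.im
  have h3 := (arg_low (a := 0 + 1) (y := z.im) (by norm_num)).2
  calc ‖Complex.Gamma (1 / 2 + I * (z.im : ℂ))‖ * Real.exp (z.im * Complex.arg (((0 + 1 : ℝ) : ℂ) + I * z.im))
      ≤ (3 * Real.exp (-(Real.pi * |z.im| / 2))) * Real.exp (Real.pi * |z.im| / 2) := by gcongr
    _ = 3 := by rw [mul_assoc, ← Real.exp_add]; simp

theorem Ga_one (z : ℂ) (hz : z.re = 1) : ‖Ga z‖ ≤ 3 := by
  unfold Ga
  rw [norm_mul, norm_pow_aux (by rw [hz]; norm_num), hz]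
  have h1 : z + 1 / 2 = (1 / 2 + I * (z.im : ℂ)) + 1 := by
    apply Complex.ext
    · simp [hz]; norm_num
    · simp
  have h0 : (1 / 2 + I * (z.im : ℂ)) ≠ 0 := by
    intro h
    have := congrArg Complex.re h
    simp at this
  rw [h1, Complex.Gamma_add_one _ h0, norm_mul]
  have h2 := half_le z.im
  have h3 := (arg_low (a := 1 + 1) (y := z.im) (by norm_num)).2
  have h4 : ‖(1 / 2 + I * (z.im : ℂ))‖ ≤ ‖z + 1‖ := by
    have e1 : (1 / 2 + I * (z.im : ℂ)).re = 1 / 2 := by simp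
    have e2 : (1 / 2 + I * (z.im : ℂ)).im = z.im := by simp
    have e3 : (z + 1).re = 2 := by simp [hz]; norm_num
    have e4 : (z + 1).im = z.im := by simp
    rw [← sq_le_sq₀ (norm_nonneg _) (norm_nonneg _), ← Complex.normSq_eq_norm_sq, ← Complex.normSq_eq_norm_sq,
      Complex.normSq_apply, Complex.normSq_apply, e1, e2, e3, e4]
    norm_num
  have h5 : 0 < ‖z + 1‖ := by
    rw [norm_pos_iff]
    intro h
    have := congrArg Complex.re h
    simp [hz] at this
  rw [Real.rpow_neg_one]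
  calc ‖(1 / 2 + I * (z.im : ℂ))‖ * ‖Complex.Gamma (1 / 2 + I * (z.im : ℂ))‖ *
        (‖z + 1‖⁻¹ * Real.exp (z.im * Complex.arg (((1 + 1 : ℝ) : ℂ) + I * z.im)))
      ≤ ‖z + 1‖ * (3 * Real.exp (-(Real.pi * |z.im| / 2))) * (‖z + 1‖⁻¹ * Real.exp (Real.pi * |z.im| / 2)) := by gcongr
    _ = 3 * (‖z + 1‖ * ‖z + 1‖⁻¹) * (Real.exp (-(Real.pi * |z.im| / 2)) * Real.exp (Real.pi * |z.im| / 2)) := by ring
    _ = 3 := by rw [← Real.exp_add, mul_inv_cancel₀ h5.ne']; simp

theorem Ga_diff : DiffContOnCl ℂ Ga (re ⁻¹' Set.Ioo 0 1) := by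
  apply DifferentiableOn.diffContOnCl
  intro z hz
  have hcl : closure (re ⁻¹' Set.Ioo (0 : ℝ) 1) ⊆ re ⁻¹' Set.Icc 0 1 := by
    rw [← closure_Ioo (show (0 : ℝ) ≠ 1 by norm_num)]
    exact Complex.continuous_re.closure_preimage_subset _
  have h1 := hcl hz
  have h2 : 0 ≤ z.re := h1.1
  unfold Ga
  apply DifferentiableAt.differentiableWithinAt
  apply DifferentiableAt.mul
  · have h3 : DifferentiableAt ℂ Complex.Gamma (z + 1 / 2) := by
      apply Complex.differentiableAt_Gamma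
      intro m hm
      have := congrArg Complex.re hm
      simp at this
      have hm0 : (0 : ℝ) ≤ m := Nat.cast_nonneg m
      linarith
    exact h3.comp z (by fun_prop)
  · apply DifferentiableAt.cpow
    · fun_prop
    · fun_prop
    · rw [Complex.mem_slitPlane_iff]
      left
      simp
      linarith

theorem Gamma_bdd : ∃ K : ℝ, 0 < K ∧ ∀ x : ℝ, 1 / 2 ≤ x → x ≤ 3 / 2 → Real.Gamma x ≤ K := by
  have h1 : ContinuousOn Real.Gamma (Set.Icc (1 / 2) (3 / 2)) := by
    intro x hx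
    apply ContinuousAt.continuousWithinAt
    apply DifferentiableAt.continuousAt (𝕜 := ℝ)
    apply Real.differentiableAt_Gamma
    intro m hm
    have := hx.1
    have hm0 : (0 : ℝ) ≤ m := Nat.cast_nonneg m
    linarith
  obtain ⟨K, hK⟩ := isCompact_Icc.bddAbove_image h1
  refine ⟨max K 1, by positivity, fun x hx1 hx2 => ?_⟩
  exact (hK ⟨x, ⟨hx1, hx2⟩, rfl⟩).trans (le_max_left _ _)

theorem Ga_le {z : ℂ} (h0 : 0 ≤ z.re) (h1 : z.re ≤ 1) : ‖Ga z‖ ≤ 3 := by
  refine PhragmenLindelof.vertical_strip Ga_diff ?_ Ga_zero Ga_one h0 h1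
  obtain ⟨K, hK, hb⟩ := Gamma_bdd
  refine ⟨1, ?_, 2, ?_⟩
  · rw [sub_zero, div_one]
    have := Real.pi_gt_three
    linarith
  · apply Asymptotics.IsBigO.of_bound K
    have hmem : ∀ᶠ w : ℂ in comap (_root_.abs ∘ im) atTop ⊓ 𝓟 (re ⁻¹' Set.Ioo 0 1), w ∈ re ⁻¹' Set.Ioo (0 : ℝ) 1 :=
      eventually_inf_principal.2 (Eventually.of_forall fun w hw => hw)
    filter_upwards [hmem] with w hw
    have hw0 : 0 < w.re := hw.1
    have hw1 : w.re < 1 := hw.2
    unfold Ga
    rw [norm_mul, norm_pow_aux (by linarith), Real.norm_eq_abs, abs_of_pos (Real.exp_pos _)]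
    have e1 : ‖Complex.Gamma (w + 1 / 2)‖ ≤ K := by
      have e2 : (w + 1 / 2).re = w.re + 1 / 2 := by simp
      refine (norm_Gamma_le51 (by rw [e2]; linarith)).trans ?_
      rw [e2]
      exact hb _ (by linarith) (by linarith)
    have e2 : ‖w + 1‖ ^ (-w.re) ≤ 1 := by
      apply Real.rpow_le_one_of_one_le_of_nonpos
      · have := Complex.re_le_norm (w + 1)
        simp at this
        linarith
      · linarith
    have e3 := (arg_low (a := w.re + 1) (y := w.im) (by linarith)).2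
    have e4 : Real.pi * |w.im| / 2 ≤ 2 * Real.exp (1 * |w.im|) := by
      have h5 := Real.add_one_le_exp (|w.im|)
      have h6 := Real.pi_le_four
      have h7 := abs_nonneg w.im
      rw [one_mul]
      nlinarith
    have e5 := Real.exp_le_exp.2 (e3.trans e4)
    have e6 : ‖w + 1‖ ^ (-w.re) * Real.exp (w.im * Complex.arg (((w.re + 1 : ℝ) : ℂ) + I * w.im)) ≤
        1 * Real.exp (2 * Real.exp (1 * |w.im|)) := mul_le_mul e2 e5 (Real.exp_pos _).le zero_le_one
    calc ‖Complex.Gamma (w + 1 / 2)‖ * (‖w + 1‖ ^ (-w.re) * Real.exp (w.im * Complex.arg (((w.re + 1 : ℝ) : ℂ) + I * w.im)))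
        ≤ K * (1 * Real.exp (2 * Real.exp (1 * |w.im|))) :=
          mul_le_mul e1 e6 (by positivity) hK.le
      _ = _ := by rw [one_mul]

/-- block GA -/
theorem stmtGA : Pool.Agent.Helper95.IT.StmtGA := by
  refine ⟨3 * (2 * Real.exp 2), by positivity, fun x y hx0 hx1 => ?_⟩
  obtain ⟨z, hz⟩ : ∃ z : ℂ, z = (x : ℂ) + I * y := ⟨_, rfl⟩
  have hre : z.re = x := by rw [hz]; simp
  have him : z.im = y := by rw [hz]; simp
  have h1 := Ga_le (z := z) (by rw [hre]; exact hx0) (by rw [hre]; exact hx1)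
  unfold Ga at h1
  rw [norm_mul, norm_pow_aux (by rw [hre]; linarith), hre, him] at h1
  have e1 : z + 1 / 2 = 1 / 2 + (x : ℂ) + I * y := by rw [hz]; ring
  rw [e1] at h1
  have hn0 : 0 < ‖z + 1‖ := by
    have := Complex.re_le_norm (z + 1)
    simp [hre] at this
    linarith
  have hn1 : ‖z + 1‖ ≤ 2 * (1 + |y|) := by
    have := Complex.norm_le_abs_re_add_abs_im (z + 1)
    simp [hre, him] at this
    rw [abs_of_nonneg (by linarith)] at this
    have := abs_nonneg y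
    linarith
  have h2 := (arg_low (a := x + 1) (y := y) (by linarith)).1
  have h3 : 0 < ‖z + 1‖ ^ (-x) := Real.rpow_pos_of_pos hn0 _
  have h4 : Real.exp (Real.pi * |y| / 2 - 2) ≤ Real.exp (y * Complex.arg (((x + 1 : ℝ) : ℂ) + I * y)) :=
    Real.exp_le_exp.2 (by linarith)
  have h5 : ‖Complex.Gamma (1 / 2 + (x : ℂ) + I * y)‖ * (‖z + 1‖ ^ (-x) * Real.exp (Real.pi * |y| / 2 - 2)) ≤ 3 :=
    le_trans (mul_le_mul_of_nonneg_left (mul_le_mul_of_nonneg_left h4 h3.le) (norm_nonneg _)) h1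
  have h6 : ‖Complex.Gamma (1 / 2 + (x : ℂ) + I * y)‖ ≤ 3 * (‖z + 1‖ ^ x * Real.exp (2 - Real.pi * |y| / 2)) := by
    have e2 : (‖z + 1‖ ^ (-x) * Real.exp (Real.pi * |y| / 2 - 2)) * (‖z + 1‖ ^ x * Real.exp (2 - Real.pi * |y| / 2)) = 1 := by
      have e3 : ‖z + 1‖ ^ (-x) * ‖z + 1‖ ^ x = 1 := by rw [← Real.rpow_add hn0]; simp
      have e4 : Real.exp (Real.pi * |y| / 2 - 2) * Real.exp (2 - Real.pi * |y| / 2) = 1 := by rw [← Real.exp_add]; simp
      calc _ = (‖z + 1‖ ^ (-x) * ‖z + 1‖ ^ x) * (Real.exp (Real.pi * |y| / 2 - 2) * Real.exp (2 - Real.pi * |y| / 2)) := by ring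
        _ = 1 := by rw [e3, e4, one_mul]
    have h7 := mul_le_mul_of_nonneg_right h5 (show 0 ≤ ‖z + 1‖ ^ x * Real.exp (2 - Real.pi * |y| / 2) by positivity)
    rwa [mul_assoc, e2, mul_one] at h7
  have h7 : ‖z + 1‖ ^ x ≤ 2 * (1 + |y|) ^ x := by
    calc ‖z + 1‖ ^ x ≤ (2 * (1 + |y|)) ^ x := Real.rpow_le_rpow hn0.le hn1 hx0
      _ = 2 ^ x * (1 + |y|) ^ x := Real.mul_rpow (by norm_num) (by positivity)
      _ ≤ 2 ^ (1 : ℝ) * (1 + |y|) ^ x := by
          gcongr
          norm_num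
      _ = 2 * (1 + |y|) ^ x := by rw [Real.rpow_one]
  have h8 : Real.exp (2 - Real.pi * |y| / 2) = Real.exp 2 * Real.exp (-(Real.pi * |y| / 2)) := by
    rw [← Real.exp_add]; congr 1
  calc ‖Complex.Gamma (1 / 2 + (x : ℂ) + I * y)‖ ≤ 3 * (‖z + 1‖ ^ x * Real.exp (2 - Real.pi * |y| / 2)) := h6
    _ ≤ 3 * ((2 * (1 + |y|) ^ x) * (Real.exp 2 * Real.exp (-(Real.pi * |y| / 2)))) := by
        rw [h8]
        gcongr
    _ = _ := by ring

end Pool.Agent.Helper51.IT
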