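import Mathlib

/-!
# Project IT (MP_a499ba_nt), block WB: a convolution bound
-/

set_option autoImplicit false

namespace Pool.Agent.Helper51.IT

open MeasureTheory

/-- the pointwise bound -/
theorem wb_pt {a x y τ : ℝ} (ha : 0 < a) (ha1 : a < 1) (hx : 1 ≤ x) (hy : 1 ≤ y) (hτ : 1 ≤ τ) (h : τ ≤ x + y) :
    x ^ (-a) * y⁻¹ ≤ 2 * τ ^ (-(a / 2)) * (x ^ (-(1 + a / 2)) + y ^ (-(1 + a / 2))) := by
  have hx0 : 0 < x := by linarith
  have hy0 : 0 < y := by linarith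
  have hτ0 : 0 < τ := by linarith
  have key : ∀ M : ℝ, τ / 2 ≤ M → 0 < M → M ^ (-(a / 2)) ≤ 2 * τ ^ (-(a / 2)) := by
    intro M hM hM0
    have h1 : M ^ (-(a / 2)) ≤ (τ / 2) ^ (-(a / 2)) := Real.rpow_le_rpow_of_nonpos (by positivity) hM (by linarith)
    refine h1.trans ?_
    rw [Real.div_rpow hτ0.le (by norm_num), div_eq_mul_inv, mul_comm, ← Real.rpow_neg (by norm_num), neg_neg]
    refine mul_le_mul_of_nonneg_right ?_ (Real.rpow_nonneg hτ0.le _)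
    calc (2 : ℝ) ^ (a / 2) ≤ 2 ^ (1 : ℝ) := Real.rpow_le_rpow_of_exponent_le (by norm_num) (by linarith)
      _ = 2 := Real.rpow_one 2
  rcases le_total x y with hxy | hxy
  · -- `y` is the larger one
    have h2 := key y (by linarith) hy0
    have h3 : y⁻¹ = y ^ (-(a / 2)) * y ^ (-(1 - a / 2)) := by
      rw [← Real.rpow_add hy0, ← Real.rpow_neg_one]; congr 1; ring
    have h4 : y ^ (-(1 - a / 2)) ≤ x ^ (-(1 - a / 2)) := Real.rpow_le_rpow_of_nonpos hx0 hxy (by linarith)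
    have h5 : x ^ (-a) * x ^ (-(1 - a / 2)) = x ^ (-(1 + a / 2)) := by
      rw [← Real.rpow_add hx0]; congr 1; ring
    have h6 : 0 ≤ y ^ (-(1 + a / 2)) := by positivity
    calc x ^ (-a) * y⁻¹ = y ^ (-(a / 2)) * (x ^ (-a) * y ^ (-(1 - a / 2))) := by rw [h3]; ring
      _ ≤ (2 * τ ^ (-(a / 2))) * (x ^ (-a) * x ^ (-(1 - a / 2))) := by gcongr
      _ = 2 * τ ^ (-(a / 2)) * x ^ (-(1 + a / 2)) := by rw [h5]
      _ ≤ _ := by
          apply mul_le_mul_of_nonneg_left _ (by positivity)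
          linarith
  · have h2 := key x (by linarith) hx0
    have h3 : x ^ (-a) = x ^ (-(a / 2)) * x ^ (-(a / 2)) := by
      rw [← Real.rpow_add hx0]; congr 1; ring
    have h4 : x ^ (-(a / 2)) ≤ y ^ (-(a / 2)) := Real.rpow_le_rpow_of_nonpos hy0 hxy (by linarith)
    have h5 : y ^ (-(a / 2)) * y⁻¹ = y ^ (-(1 + a / 2)) := by
      rw [← Real.rpow_neg_one, ← Real.rpow_add hy0]; congr 1; ring
    have h6 : 0 ≤ x ^ (-(1 + a / 2)) := by positivity
    calc x ^ (-a) * y⁻¹ = x ^ (-(a / 2)) * (x ^ (-(a / 2)) * y⁻¹) := by rw [h3]; ring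
      _ ≤ (2 * τ ^ (-(a / 2))) * (y ^ (-(a / 2)) * y⁻¹) := by gcongr
      _ = 2 * τ ^ (-(a / 2)) * y ^ (-(1 + a / 2)) := by rw [h5]
      _ ≤ _ := by
          apply mul_le_mul_of_nonneg_left _ (by positivity)
          linarith

theorem norm_low {c w : ℝ} (hc : 0 < c) : min c 1 / 2 * (1 + |w|) ≤ ‖(c : ℂ) + Complex.I * (w : ℂ)‖ := by
  have h1 : c ≤ ‖(c : ℂ) + Complex.I * (w : ℂ)‖ := by
    have := Complex.re_le_norm ((c : ℂ) + Complex.I * (w : ℂ))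
    simpa using this
  have h2 : |w| ≤ ‖(c : ℂ) + Complex.I * (w : ℂ)‖ := by
    have := Complex.abs_im_le_norm ((c : ℂ) + Complex.I * (w : ℂ))
    simpa using this
  have h3 : min c 1 ≤ c := min_le_left _ _
  have h4 : min c 1 ≤ 1 := min_le_right _ _
  have h5 : 0 < min c 1 := lt_min hc one_pos
  have h6 := abs_nonneg w
  have h7 : min c 1 * |w| ≤ |w| := mul_le_of_le_one_left h6 h4
  linarith

theorem wb : ∀ c a : ℝ, 0 < c → 0 < a → a < 1 → ∃ C : ℝ, 0 < C ∧ ∀ t : ℝ,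
    Integrable (fun v : ℝ => (1 + |v|) ^ (-a) / ‖(c : ℂ) + Complex.I * ((v : ℂ) - (t : ℂ))‖) ∧
    ∫ v : ℝ, (1 + |v|) ^ (-a) / ‖(c : ℂ) + Complex.I * ((v : ℂ) - (t : ℂ))‖ ≤ C * (1 + |t|) ^ (-(a / 2)) := by
  intro c a hc ha ha1
  have hJ : Integrable (fun v : ℝ => (1 + |v|) ^ (-(1 + a / 2))) := by
    have := integrable_one_add_norm (E := ℝ) (μ := volume) (r := 1 + a / 2) (by
      rw [Module.finrank_self]; push_cast; linarith)
    simpa only [Real.norm_eq_abs] using this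
  obtain ⟨J, hJe⟩ : ∃ J : ℝ, J = ∫ v : ℝ, (1 + |v|) ^ (-(1 + a / 2)) := ⟨_, rfl⟩
  have hJ0 : 0 ≤ J := by rw [hJe]; exact integral_nonneg fun v => by positivity
  have hm : 0 < min c 1 := lt_min hc one_pos
  refine ⟨(min c 1 / 2)⁻¹ * 2 * (2 * J + 1), by positivity, fun t => ?_⟩
  have hJt : Integrable (fun v : ℝ => (1 + |v - t|) ^ (-(1 + a / 2))) := hJ.comp_sub_right t
  have hdom : Integrable (fun v : ℝ => (min c 1 / 2)⁻¹ * (2 * (1 + |t|) ^ (-(a / 2)) *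
      ((1 + |v|) ^ (-(1 + a / 2)) + (1 + |v - t|) ^ (-(1 + a / 2))))) := ((hJ.add hJt).const_mul _).const_mul _
  have hpt : ∀ v : ℝ, (1 + |v|) ^ (-a) / ‖(c : ℂ) + Complex.I * ((v : ℂ) - (t : ℂ))‖ ≤
      (min c 1 / 2)⁻¹ * (2 * (1 + |t|) ^ (-(a / 2)) * ((1 + |v|) ^ (-(1 + a / 2)) + (1 + |v - t|) ^ (-(1 + a / 2)))) := by
    intro v
    have h1 := norm_low (w := v - t) hc
    rw [Complex.ofReal_sub] at h1
    have hb : 0 < 1 + |v - t| := by positivity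
    have h2 : (1 + |v|) ^ (-a) / ‖(c : ℂ) + Complex.I * ((v : ℂ) - (t : ℂ))‖ ≤ (1 + |v|) ^ (-a) / (min c 1 / 2 * (1 + |v - t|)) :=
      div_le_div_of_nonneg_left (by positivity) (by positivity) h1
    refine h2.trans ?_
    have h3 : (1 + |v|) ^ (-a) / (min c 1 / 2 * (1 + |v - t|)) = (min c 1 / 2)⁻¹ * ((1 + |v|) ^ (-a) * (1 + |v - t|)⁻¹) := by
      field_simp
    rw [h3]
    refine mul_le_mul_of_nonneg_left ?_ (by positivity)
    apply wb_pt ha ha1 (by linarith [abs_nonneg v]) (by linarith [abs_nonneg (v - t)]) (by linarith [abs_nonneg t])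
    have h4 : |t| ≤ |v| + |v - t| := by
      calc |t| = |v - (v - t)| := by congr 1; ring
        _ ≤ |v| + |v - t| := abs_sub _ _
    linarith
  have hmeas : AEStronglyMeasurable (fun v : ℝ => (1 + |v|) ^ (-a) / ‖(c : ℂ) + Complex.I * ((v : ℂ) - (t : ℂ))‖) volume := by
    apply Measurable.aestronglyMeasurable
    apply Measurable.div
    · exact Measurable.pow_const (by fun_prop) _
    · apply Measurable.norm
      apply Continuous.measurable
      fun_prop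
  have hint : Integrable (fun v : ℝ => (1 + |v|) ^ (-a) / ‖(c : ℂ) + Complex.I * ((v : ℂ) - (t : ℂ))‖) := by
    refine hdom.mono' hmeas (Filter.Eventually.of_forall fun v => ?_)
    rw [Real.norm_eq_abs, abs_of_nonneg (by positivity)]
    exact hpt v
  refine ⟨hint, ?_⟩
  calc ∫ v : ℝ, (1 + |v|) ^ (-a) / ‖(c : ℂ) + Complex.I * ((v : ℂ) - (t : ℂ))‖ ≤ ∫ v : ℝ, (min c 1 / 2)⁻¹ * (2 * (1 + |t|) ^ (-(a / 2)) *
      ((1 + |v|) ^ (-(1 + a / 2)) + (1 + |v - t|) ^ (-(1 + a / 2)))) := integral_mono hint hdom hpt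
    _ = (min c 1 / 2)⁻¹ * (2 * (1 + |t|) ^ (-(a / 2)) * (J + J)) := by
        rw [integral_const_mul, integral_const_mul, integral_add hJ hJt,
          integral_sub_right_eq_self (fun v : ℝ => (1 + |v|) ^ (-(1 + a / 2))) t, ← hJe]
    _ ≤ (min c 1 / 2)⁻¹ * 2 * (2 * J + 1) * (1 + |t|) ^ (-(a / 2)) := by
        have h1 : 0 ≤ (1 + |t|) ^ (-(a / 2)) := by positivity
        have h2 : 0 ≤ (min c 1 / 2)⁻¹ := by positivity
        have h3 : 0 ≤ (min c 1 / 2)⁻¹ * 2 * (1 + |t|) ^ (-(a / 2)) := by positivity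
        have h4 : (min c 1 / 2)⁻¹ * (2 * (1 + |t|) ^ (-(a / 2)) * (J + J)) =
            ((min c 1 / 2)⁻¹ * 2 * (1 + |t|) ^ (-(a / 2))) * (2 * J) := by ring
        have h5 : (min c 1 / 2)⁻¹ * 2 * (2 * J + 1) * (1 + |t|) ^ (-(a / 2)) =
            ((min c 1 / 2)⁻¹ * 2 * (1 + |t|) ^ (-(a / 2))) * (2 * J + 1) := by ring
        rw [h4, h5]
        exact mul_le_mul_of_nonneg_left (by linarith) h3

end Pool.Agent.Helper51.IT
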