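import Pool.Agent.Helper56.IT.Stmts

/-!
# Project IT (MP_a499ba_nt), block F: the completely multiplicative model, deterministic part
-/

set_option autoImplicit false

namespace Pool.Agent.Helper51.IT

open Finset MeasureTheory Pool.Agent.IT Pool.Agent.Helper5.RM Pool.Agent.Helper96.AF Pool.Agent.Helper66.LW
open scoped ContDiff

theorem norm_fp (th : ℕ → ℝ) (T : Finset ℕ) (p : ℕ) : ‖fp th T p‖ = 1 := by
  unfold fp
  rw [norm_mul, Complex.norm_real, Real.norm_eq_abs, abs_sg, one_mul, mul_comm, Complex.norm_exp_ofReal_mul_I]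

theorem fL_zero (th : ℕ → ℝ) (T : Finset ℕ) : fL th T 0 = 0 := if_pos rfl

theorem fL_one (th : ℕ → ℝ) (T : Finset ℕ) : fL th T 1 = 1 := by
  unfold fL
  rw [if_neg one_ne_zero, Nat.primeFactors_one, Finset.prod_empty]

/-- the product over any finite set of primes containing the prime factors -/
theorem fL_prod (th : ℕ → ℝ) (T : Finset ℕ) {n : ℕ} (hn : n ≠ 0) {S : Finset ℕ} (hS : n.primeFactors ⊆ S) :
    fL th T n = ∏ p ∈ S, fp th T p ^ n.factorization p := by
  unfold fL
  rw [if_neg hn]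
  refine Finset.prod_subset hS fun p _ hp => ?_
  have : n.factorization p = 0 := by
    rwa [← Nat.support_factorization, Finsupp.notMem_support_iff] at hp
  rw [this, pow_zero]

theorem fL_mul (th : ℕ → ℝ) (T : Finset ℕ) (m n : ℕ) : fL th T (m * n) = fL th T m * fL th T n := by
  rcases eq_or_ne m 0 with hm | hm
  · rw [hm, zero_mul, fL_zero, zero_mul]
  rcases eq_or_ne n 0 with hn | hn
  · rw [hn, mul_zero, fL_zero, mul_zero]
  have h1 : m.primeFactors ⊆ (m * n).primeFactors := by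
    rw [Nat.primeFactors_mul hm hn]; exact Finset.subset_union_left
  have h2 : n.primeFactors ⊆ (m * n).primeFactors := by
    rw [Nat.primeFactors_mul hm hn]; exact Finset.subset_union_right
  rw [fL_prod th T (mul_ne_zero hm hn) (Finset.Subset.refl _), fL_prod th T hm h1, fL_prod th T hn h2, ← Finset.prod_mul_distrib]
  refine Finset.prod_congr rfl fun p _ => ?_
  rw [Nat.factorization_mul hm hn, Finsupp.add_apply, pow_add]

theorem norm_fL_le (th : ℕ → ℝ) (T : Finset ℕ) (n : ℕ) : ‖fL th T n‖ ≤ 1 := by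
  unfold fL
  split_ifs
  · simp
  · rw [norm_prod]
    refine Finset.prod_le_one (fun p _ => norm_nonneg _) fun p _ => ?_
    rw [norm_pow, norm_fp, one_pow]

theorem norm_smo_le {f : ℕ → ℂ} (hf : ∀ n, ‖f n‖ ≤ 1) (r n : ℕ) : ‖smo r f n‖ ≤ 1 := by
  unfold smo
  split_ifs
  · exact hf n
  · simp

theorem smo_zero (r : ℕ) (th : ℕ → ℝ) (T : Finset ℕ) : smo r (fL th T) 0 = 0 := by
  unfold smo
  rw [fL_zero]; simp

theorem smo_one (r : ℕ) (th : ℕ → ℝ) (T : Finset ℕ) : smo r (fL th T) 1 = 1 := by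
  unfold smo
  rw [fL_one]; simp

theorem smo_mul (r : ℕ) (th : ℕ → ℝ) (T : Finset ℕ) (m n : ℕ) :
    smo r (fL th T) (m * n) = smo r (fL th T) m * smo r (fL th T) n := by
  rcases eq_or_ne m 0 with hm | hm
  · rw [hm, zero_mul, smo_zero, zero_mul]
  rcases eq_or_ne n 0 with hn | hn
  · rw [hn, mul_zero, smo_zero, mul_zero]
  unfold smo
  rw [Nat.primeFactors_mul hm hn]
  by_cases h1 : ∀ p ∈ m.primeFactors, p ≤ Y r
  · by_cases h2 : ∀ p ∈ n.primeFactors, p ≤ Y r
    · rw [if_pos h1, if_pos h2, if_pos, fL_mul]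
      intro p hp
      rcases Finset.mem_union.1 hp with h | h
      · exact h1 p h
      · exact h2 p h
    · rw [if_neg h2, if_neg, mul_zero]
      intro h
      exact h2 fun p hp => h p (Finset.mem_union_right _ hp)
  · rw [if_neg h1, if_neg, zero_mul]
    intro h
    exact h1 fun p hp => h p (Finset.mem_union_left _ hp)

/-- the terms of the Dirichlet series as a homomorphism -/
noncomputable def tH (r : ℕ) (th : ℕ → ℝ) (T : Finset ℕ) (s : ℂ) : ℕ →* ℂ where
  toFun n := smo r (fL th T) n * (n : ℂ) ^ (-s)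
  map_one' := by simp [smo_one]
  map_mul' m n := by
    rw [smo_mul, Nat.cast_mul, Complex.natCast_mul_natCast_cpow]
    ring

theorem tH_apply (r : ℕ) (th : ℕ → ℝ) (T : Finset ℕ) (s : ℂ) (n : ℕ) :
    tH r th T s n = smo r (fL th T) n * (n : ℂ) ^ (-s) := rfl

theorem norm_natpow {n : ℕ} (hn : 0 < n) (s : ℂ) : ‖(n : ℂ) ^ (-s)‖ = (n : ℝ) ^ (-s.re) := by
  rw [Complex.norm_natCast_cpow_of_pos hn, Complex.neg_re]

theorem euler (r : ℕ) (th : ℕ → ℝ) (T : Finset ℕ) {s : ℂ} (hs : 0 < s.re) :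
    (Summable fun n : ℕ => ‖smo r (fL th T) n * (n : ℂ) ^ (-s)‖) ∧
    HasSum (fun n : ℕ => smo r (fL th T) n * (n : ℂ) ^ (-s)) (∏ p ∈ PP (Y r), (1 - fp th T p * (p : ℂ) ^ (-s))⁻¹) := by
  have h1 : ∀ {p : ℕ}, p.Prime → ‖tH r th T s p‖ < 1 := by
    intro p hp
    rw [tH_apply, norm_mul, norm_natpow hp.pos]
    have h2 := norm_smo_le (norm_fL_le th T) r p
    have h3 : (p : ℝ) ^ (-s.re) < 1 := Real.rpow_lt_one_of_one_lt_of_neg (by exact_mod_cast hp.one_lt) (by linarith)
    have h4 : 0 ≤ (p : ℝ) ^ (-s.re) := by positivity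
    calc ‖smo r (fL th T) p‖ * (p : ℝ) ^ (-s.re) ≤ 1 * (p : ℝ) ^ (-s.re) := mul_le_mul_of_nonneg_right h2 h4
      _ < 1 := by rw [one_mul]; exact h3
  obtain ⟨e1, e2⟩ := EulerProduct.summable_and_hasSum_factoredNumbers_prod_filter_prime_geometric h1 (PP (Y r))
  have hsup : ∀ n : ℕ, n ∉ Nat.factoredNumbers (PP (Y r)) → smo r (fL th T) n = 0 := by
    intro n hn
    rcases eq_or_ne n 0 with h0 | h0
    · rw [h0, smo_zero]
    unfold smo
    rw [if_neg]
    intro h
    apply hn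
    rw [Nat.mem_factoredNumbers]
    refine ⟨h0, fun p hp => ?_⟩
    rw [mem_PP]
    have hp' : p ∈ n.primeFactors := by rwa [Nat.mem_primeFactors_iff_mem_primeFactorsList]
    exact ⟨Nat.prime_of_mem_primeFactors hp', h p hp'⟩
  have hprod : ∏ p ∈ PP (Y r) with p.Prime, (1 - tH r th T s p)⁻¹ = ∏ p ∈ PP (Y r), (1 - fp th T p * (p : ℂ) ^ (-s))⁻¹ := by
    rw [Finset.filter_true_of_mem fun p hp => (mem_PP.1 hp).1]
    refine Finset.prod_congr rfl fun p hp => ?_
    have hp1 := (mem_PP.1 hp).1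
    rw [tH_apply]
    congr 3
    unfold smo
    rw [if_pos]
    · unfold fL
      rw [if_neg hp1.ne_zero, hp1.primeFactors, Finset.prod_singleton, hp1.factorization_self, pow_one]
    · intro q hq
      rw [hp1.primeFactors, Finset.mem_singleton] at hq
      rw [hq]
      exact (mem_PP.1 hp).2
  rw [hprod] at e2
  constructor
  · have h5 : Function.support (fun n : ℕ => ‖smo r (fL th T) n * (n : ℂ) ^ (-s)‖) ⊆ Nat.factoredNumbers (PP (Y r)) := by
      intro n hn
      by_contra hc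
      apply hn
      simp [hsup n hc]
    have h6 : Summable ((fun n : ℕ => ‖smo r (fL th T) n * (n : ℂ) ^ (-s)‖) ∘ ((↑) : Nat.factoredNumbers (PP (Y r)) → ℕ)) := e1
    obtain ⟨a, ha⟩ := h6
    exact ⟨a, (hasSum_subtype_iff_of_support_subset h5).1 ha⟩
  · refine (hasSum_subtype_iff_of_support_subset ?_).1 e2
    intro n hn
    by_contra hc
    apply hn
    simp [hsup n hc]

end Pool.Agent.Helper51.IT
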