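import Pool.Agent.Helper51.IT.L1

/-!
# Project IT (MP_a499ba_nt), block F: second moments of the completely multiplicative model
-/

set_option autoImplicit false

namespace Pool.Agent.Helper51.IT

open Finset MeasureTheory Pool.Agent.IT Pool.Agent.Helper5.RM Pool.Agent.Helper96.AF Pool.Agent.Helper66.LW
open scoped ContDiff

/-- the exponents are congruent modulo four -/
def eq4 (m m' : ℕ) : Prop := ∀ p, m.factorization p % 4 = m'.factorization p % 4

/-! ### counting -/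

theorem fourth_of {u : ℕ} (hu : u ≠ 0) (h : ∀ p, u.factorization p % 4 = 0) : ∃ a : ℕ, 1 ≤ a ∧ a ^ 4 = u := by
  refine ⟨∏ p ∈ u.primeFactors, p ^ (u.factorization p / 4), ?_, ?_⟩
  · exact Finset.prod_pos fun p hp => pow_pos (Nat.prime_of_mem_primeFactors hp).pos _
  · rw [← Finset.prod_pow]
    conv_rhs => rw [← Nat.prod_factorization_pow_eq_self hu, Finsupp.prod, Nat.support_factorization]
    refine Finset.prod_congr rfl fun p _ => ?_
    rw [← pow_mul]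
    congr 1
    have := h p
    omega

theorem eq4_exists {m m' : ℕ} (hm : m ≠ 0) (hm' : m' ≠ 0) (h : eq4 m m') :
    ∃ g a b : ℕ, 1 ≤ g ∧ 1 ≤ a ∧ 1 ≤ b ∧ m = a ^ 4 * g ∧ m' = b ^ 4 * g := by
  have hg : Nat.gcd m m' ≠ 0 := Nat.gcd_ne_zero_left hm
  obtain ⟨u, hu⟩ := Nat.gcd_dvd_left m m'
  obtain ⟨w, hw⟩ := Nat.gcd_dvd_right m m'
  have hu0 : u ≠ 0 := by
    intro h0
    rw [h0, mul_zero] at hu
    exact hm hu
  have hw0 : w ≠ 0 := by
    intro h0
    rw [h0, mul_zero] at hw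
    exact hm' hw
  have e1 : ∀ p, m.factorization p = (Nat.gcd m m').factorization p + u.factorization p := by
    intro p
    conv_lhs => rw [hu, Nat.factorization_mul hg hu0]
    rfl
  have e2 : ∀ p, m'.factorization p = (Nat.gcd m m').factorization p + w.factorization p := by
    intro p
    conv_lhs => rw [hw, Nat.factorization_mul hg hw0]
    rfl
  have e3 : ∀ p, (Nat.gcd m m').factorization p = min (m.factorization p) (m'.factorization p) := by
    intro p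
    rw [Nat.factorization_gcd hm hm', Finsupp.inf_apply]
  have h1 : ∀ p, u.factorization p % 4 = 0 := by
    intro p
    have a1 := e1 p
    have a2 := e3 p
    have a3 := h p
    omega
  have h2 : ∀ p, w.factorization p % 4 = 0 := by
    intro p
    have a1 := e2 p
    have a2 := e3 p
    have a3 := h p
    omega
  obtain ⟨a, ha1, ha⟩ := fourth_of hu0 h1
  obtain ⟨b, hb1, hb⟩ := fourth_of hw0 h2
  refine ⟨Nat.gcd m m', a, b, Nat.pos_of_ne_zero hg, ha1, hb1, ?_, ?_⟩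
  · rw [ha, mul_comm]; exact hu
  · rw [hb, mul_comm]; exact hw

/-- the admissible fourth powers -/
def Ag (n g : ℕ) : Finset ℕ := (Finset.Icc 1 n).filter fun a => a ^ 4 * g ≤ n

theorem mem_Ag {n g a : ℕ} : a ∈ Ag n g ↔ (1 ≤ a ∧ a ≤ n) ∧ a ^ 4 * g ≤ n := by
  unfold Ag
  rw [Finset.mem_filter, Finset.mem_Icc]

theorem card_Ag (n g : ℕ) : (Ag n g).card ^ 4 * g ≤ n := by
  rcases Finset.eq_empty_or_nonempty (Ag n g) with h | h
  · rw [h]; simp
  · have h1 := Finset.max'_mem (Ag n g) h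
    have h2 : Ag n g ⊆ Finset.Icc 1 ((Ag n g).max' h) := by
      intro a ha
      rw [Finset.mem_Icc]
      refine ⟨?_, Finset.le_max' _ _ ha⟩
      exact (mem_Ag.1 ha).1.1
    have h3 := Finset.card_le_card h2
    rw [Nat.card_Icc, Nat.add_sub_cancel] at h3
    have h4 : ((Ag n g).max' h) ^ 4 * g ≤ n := (mem_Ag.1 h1).2
    exact (Nat.mul_le_mul_right g (Nat.pow_le_pow_left h3 4)).trans h4

theorem sum_inv_sqrt (n : ℕ) : ∑ g ∈ Finset.Icc 1 n, 1 / Real.sqrt g ≤ 2 * Real.sqrt n := by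
  induction n with
  | zero => simp
  | succ n ih =>
    rw [Finset.sum_Icc_succ_top (by omega)]
    have h0 : (0 : ℝ) < ((n + 1 : ℕ) : ℝ) := by positivity
    have h1 : 0 < Real.sqrt ((n + 1 : ℕ) : ℝ) := Real.sqrt_pos.2 h0
    have h2 : Real.sqrt (n : ℝ) ≤ Real.sqrt ((n + 1 : ℕ) : ℝ) - 1 / (2 * Real.sqrt ((n + 1 : ℕ) : ℝ)) := by
      apply Real.sqrt_le_iff.2
      constructor
      · have h3 : (1 : ℝ) ≤ Real.sqrt ((n + 1 : ℕ) : ℝ) := by
          rw [Real.one_le_sqrt]; push_cast; linarith [Nat.cast_nonneg (α := ℝ) n]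
        have h4 : 1 / (2 * Real.sqrt ((n + 1 : ℕ) : ℝ)) ≤ 1 := by
          rw [div_le_one (by positivity)]; linarith
        linarith
      · have h5 : Real.sqrt ((n + 1 : ℕ) : ℝ) ^ 2 = n + 1 := by
          rw [Real.sq_sqrt h0.le]; push_cast; ring
        have h6 : (Real.sqrt ((n + 1 : ℕ) : ℝ) - 1 / (2 * Real.sqrt ((n + 1 : ℕ) : ℝ))) ^ 2 =
            Real.sqrt ((n + 1 : ℕ) : ℝ) ^ 2 - 1 + (1 / (2 * Real.sqrt ((n + 1 : ℕ) : ℝ))) ^ 2 := by
          field_simp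
          ring
        rw [h6, h5]
        have : 0 ≤ (1 / (2 * Real.sqrt ((n + 1 : ℕ) : ℝ))) ^ 2 := by positivity
        linarith
    have h3 : 1 / (2 * Real.sqrt ((n + 1 : ℕ) : ℝ)) = 1 / Real.sqrt ((n + 1 : ℕ) : ℝ) / 2 := by
      field_simp
    rw [h3] at h2
    linarith

open Classical in
theorem card_eq4 (n : ℕ) :
    (((Finset.Icc 1 n ×ˢ Finset.Icc 1 n).filter fun z => eq4 z.1 z.2).card : ℝ) ≤ 2 * n := by
  have h1 : ((Finset.Icc 1 n ×ˢ Finset.Icc 1 n).filter fun z => eq4 z.1 z.2) ⊆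
      ((Finset.Icc 1 n).sigma fun g => Ag n g ×ˢ Ag n g).image fun x => (x.2.1 ^ 4 * x.1, x.2.2 ^ 4 * x.1) := by
    intro z hz
    rw [Finset.mem_filter, Finset.mem_product, Finset.mem_Icc, Finset.mem_Icc] at hz
    obtain ⟨⟨⟨z1, z2⟩, ⟨z3, z4⟩⟩, h⟩ := hz
    obtain ⟨g, a, b, hg, ha, hb, e1, e2⟩ := eq4_exists (by omega) (by omega) h
    rw [Finset.mem_image]
    refine ⟨⟨g, (a, b)⟩, ?_, ?_⟩
    · have k1 : a ≤ a ^ 4 := Nat.le_self_pow (by norm_num) a
      have k2 : b ≤ b ^ 4 := Nat.le_self_pow (by norm_num) b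
      have k3 : a ^ 4 ≤ a ^ 4 * g := Nat.le_mul_of_pos_right _ hg
      have k4 : b ^ 4 ≤ b ^ 4 * g := Nat.le_mul_of_pos_right _ hg
      have k5 : g ≤ a ^ 4 * g := Nat.le_mul_of_pos_left _ (pow_pos ha 4)
      have k6 : g ≤ n := by omega
      have k7 : a ∈ Ag n g := mem_Ag.2 ⟨⟨ha, by omega⟩, by omega⟩
      have k8 : b ∈ Ag n g := mem_Ag.2 ⟨⟨hb, by omega⟩, by omega⟩
      exact Finset.mem_sigma.2 ⟨Finset.mem_Icc.2 ⟨hg, k6⟩, Finset.mem_product.2 ⟨k7, k8⟩⟩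
    · exact (Prod.ext e1 e2).symm
  have h2 := (Finset.card_le_card h1).trans Finset.card_image_le
  rw [Finset.card_sigma] at h2
  have h3 : (((Finset.Icc 1 n ×ˢ Finset.Icc 1 n).filter fun z => eq4 z.1 z.2).card : ℝ) ≤
      ∑ g ∈ Finset.Icc 1 n, ((Ag n g).card : ℝ) ^ 2 := by
    have h2' : (((Finset.Icc 1 n ×ˢ Finset.Icc 1 n).filter fun z => eq4 z.1 z.2).card : ℝ) ≤
        ((∑ g ∈ Finset.Icc 1 n, (Ag n g ×ˢ Ag n g).card : ℕ) : ℝ) := by exact_mod_cast h2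
    refine h2'.trans (le_of_eq ?_)
    push_cast
    refine Finset.sum_congr rfl fun g _ => ?_
    rw [Finset.card_product]
    push_cast
    ring
  refine h3.trans ?_
  have h4 : ∀ g ∈ Finset.Icc 1 n, ((Ag n g).card : ℝ) ^ 2 ≤ Real.sqrt n * (1 / Real.sqrt g) := by
    intro g hg
    rw [Finset.mem_Icc] at hg
    have hg0 : (0 : ℝ) < g := by exact_mod_cast hg.1
    have h5 : (((Ag n g).card : ℝ) ^ 2) ^ 2 ≤ n / g := by
      rw [le_div_iff₀ hg0]
      have := card_Ag n g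
      calc (((Ag n g).card : ℝ) ^ 2) ^ 2 * g = (((Ag n g).card ^ 4 * g : ℕ) : ℝ) := by push_cast; ring
        _ ≤ n := by exact_mod_cast this
    have h6 := Real.le_sqrt_of_sq_le h5
    rwa [Real.sqrt_div (Nat.cast_nonneg n), ← mul_one_div] at h6
  refine (Finset.sum_le_sum h4).trans ?_
  rw [← Finset.mul_sum]
  calc Real.sqrt n * ∑ g ∈ Finset.Icc 1 n, 1 / Real.sqrt g ≤ Real.sqrt n * (2 * Real.sqrt n) :=
        mul_le_mul_of_nonneg_left (sum_inv_sqrt n) (Real.sqrt_nonneg _)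
    _ = 2 * (Real.sqrt n * Real.sqrt n) := by ring
    _ = 2 * n := by rw [Real.mul_self_sqrt (Nat.cast_nonneg n)]

/-! ### orthogonality -/

theorem I_pow_aux (a b : ℕ) (h : a % 4 ≠ b % 4) :
    (1 + (-1 : ℂ) ^ a * (-1) ^ b) * (1 + Complex.I ^ a * (-Complex.I) ^ b) = 0 := by
  rcases Nat.even_or_odd (a + b) with he | ho
  · have h1 : (a + 3 * b) % 4 = 2 := by
      obtain ⟨k, hk⟩ := he
      omega
    have h2 : (-Complex.I) ^ b = Complex.I ^ (3 * b) := by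
      rw [pow_mul]
      congr 1
      rw [pow_succ, pow_two, Complex.I_mul_I]
      ring
    have h3 : Complex.I ^ (a + 3 * b) = -1 := by
      rw [← Nat.div_add_mod (a + 3 * b) 4, h1, pow_add, pow_mul, Complex.I_pow_four, one_pow, one_mul, Complex.I_sq]
    rw [h2, ← pow_add Complex.I, h3]
    ring
  · rw [← pow_add, ho.neg_one_pow]
    ring

theorem fp_four (c : ℂ) (a b : ℕ) (h : a % 4 ≠ b % 4) :
    c ^ a * (starRingEnd ℂ) c ^ b + (-c) ^ a * (starRingEnd ℂ) (-c) ^ b +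
      (Complex.I * c) ^ a * (starRingEnd ℂ) (Complex.I * c) ^ b +
      (-(Complex.I * c)) ^ a * (starRingEnd ℂ) (-(Complex.I * c)) ^ b = 0 := by
  have h1 := I_pow_aux a b h
  have e1 : (-c) ^ a * (starRingEnd ℂ) (-c) ^ b = (c ^ a * (starRingEnd ℂ) c ^ b) * ((-1) ^ a * (-1) ^ b) := by
    rw [map_neg, neg_pow c, neg_pow ((starRingEnd ℂ) c)]
    ring
  have e2 : (Complex.I * c) ^ a * (starRingEnd ℂ) (Complex.I * c) ^ b =
      (c ^ a * (starRingEnd ℂ) c ^ b) * (Complex.I ^ a * (-Complex.I) ^ b) := by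
    rw [map_mul, Complex.conj_I, mul_pow, mul_pow]
    ring
  have e3 : (-(Complex.I * c)) ^ a * (starRingEnd ℂ) (-(Complex.I * c)) ^ b =
      (c ^ a * (starRingEnd ℂ) c ^ b) * (((-1) ^ a * (-1) ^ b) * (Complex.I ^ a * (-Complex.I) ^ b)) := by
    rw [map_neg, neg_pow (Complex.I * c), neg_pow ((starRingEnd ℂ) (Complex.I * c)), map_mul, Complex.conj_I, mul_pow, mul_pow]
    ring
  rw [e1, e2, e3]
  linear_combination (c ^ a * (starRingEnd ℂ) c ^ b) * h1

theorem fp_congr {th th' : ℕ → ℝ} {T T' : Finset ℕ} {q : ℕ} (h1 : th q = th' q) (h2 : q ∈ T ↔ q ∈ T') :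
    fp th T q = fp th' T' q := by
  unfold fp sg
  rw [h1]
  by_cases h : q ∈ T
  · rw [if_pos h, if_pos (h2.1 h)]
  · rw [if_neg h, if_neg fun hh => h (h2.2 hh)]

theorem fp00 {ph : ℕ → ℝ} {T T2 : Finset ℕ} {p : ℕ} (h1 : p ∉ T) (h2 : p ∉ T2) :
    fp (tt ph T2) T p = Complex.exp (Complex.I * (ph p : ℂ)) := by
  unfold fp tt
  rw [sg_not_mem h1, if_neg h2]
  simp

theorem fp10 {ph : ℕ → ℝ} {T T2 : Finset ℕ} {p : ℕ} (h1 : p ∈ T) (h2 : p ∉ T2) :
    fp (tt ph T2) T p = -Complex.exp (Complex.I * (ph p : ℂ)) := by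
  unfold fp tt
  rw [sg_mem h1, if_neg h2]
  simp

theorem exp_quarter (x : ℝ) : Complex.exp (Complex.I * ((x + Real.pi / 2 : ℝ) : ℂ)) = Complex.I * Complex.exp (Complex.I * (x : ℂ)) := by
  rw [Complex.ofReal_add, mul_add, Complex.exp_add, mul_comm]
  congr 1
  rw [Complex.ofReal_div, Complex.ofReal_ofNat, mul_comm, Complex.exp_pi_div_two_mul_I]

theorem fp01 {ph : ℕ → ℝ} {T T2 : Finset ℕ} {p : ℕ} (h1 : p ∉ T) (h2 : p ∈ T2) :
    fp (tt ph T2) T p = Complex.I * Complex.exp (Complex.I * (ph p : ℂ)) := by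
  unfold fp tt
  rw [sg_not_mem h1, if_pos h2, exp_quarter]
  simp

theorem fp11 {ph : ℕ → ℝ} {T T2 : Finset ℕ} {p : ℕ} (h1 : p ∈ T) (h2 : p ∈ T2) :
    fp (tt ph T2) T p = -(Complex.I * Complex.exp (Complex.I * (ph p : ℂ))) := by
  unfold fp tt
  rw [sg_mem h1, if_pos h2, exp_quarter]
  simp

/-- the double average -/
noncomputable def av2 (S : Finset ℕ) (G : Finset ℕ → Finset ℕ → ℝ) : ℝ := av S fun T2 => av S fun T1 => G T2 T1

theorem av2_insert {S : Finset ℕ} {q : ℕ} (h : q ∉ S) (G : Finset ℕ → Finset ℕ → ℝ) :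
    av2 (insert q S) G = av2 S (fun T2 T1 => (G T2 T1 + G T2 (insert q T1) + G (insert q T2) T1 + G (insert q T2) (insert q T1)) / 4) := by
  unfold av2
  rw [av_insert h]
  simp only [av_insert h]
  rw [← av_add]
  have h1 : ∀ (H : Finset ℕ → ℝ), av S H / 2 = av S fun T => H T / 2 := by
    intro H
    rw [div_eq_inv_mul, ← av_mul_left]
    refine av_congr fun T _ => ?_
    ring
  rw [h1]
  refine av_congr fun T2 _ => ?_
  rw [← av_add, ← av_add, h1, h1, ← av_add, h1]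
  refine av_congr fun T1 _ => ?_
  ring

/-- the term of the second moment -/
noncomputable def gt (r : ℕ) (ph : ℕ → ℝ) (m m' : ℕ) (T2 T1 : Finset ℕ) : ℝ :=
  (smo r (fL (tt ph T2) T1) m * (starRingEnd ℂ) (smo r (fL (tt ph T2) T1) m')).re

theorem gt_eq {r : ℕ} (ph : ℕ → ℝ) {m m' : ℕ} (hm0 : m ≠ 0) (hm0' : m' ≠ 0) (hm : ∀ p ∈ m.primeFactors, p ≤ Y r)
    (hm' : ∀ p ∈ m'.primeFactors, p ≤ Y r) (T2 T1 : Finset ℕ) :
    gt r ph m m' T2 T1 = (∏ p ∈ PP (Y r), (fp (tt ph T2) T1 p ^ m.factorization p *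
      (starRingEnd ℂ) (fp (tt ph T2) T1 p) ^ m'.factorization p)).re := by
  have key : ∀ k : ℕ, k ≠ 0 → (∀ p ∈ k.primeFactors, p ≤ Y r) →
      smo r (fL (tt ph T2) T1) k = ∏ p ∈ PP (Y r), fp (tt ph T2) T1 p ^ k.factorization p := by
    intro k hk0 hk
    unfold smo
    rw [if_pos hk]
    refine fL_prod _ _ hk0 fun p hp => ?_
    rw [mem_PP]
    exact ⟨Nat.prime_of_mem_primeFactors hp, hk p hp⟩
  unfold gt
  rw [key m hm0 hm, key m' hm0' hm', map_prod, ← Finset.prod_mul_distrib]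
  congr 1
  refine Finset.prod_congr rfl fun p _ => ?_
  rw [map_pow]

theorem gt_orth (r : ℕ) (ph : ℕ → ℝ) {m m' : ℕ} (hm0 : m ≠ 0) (hm0' : m' ≠ 0) (h : ¬ eq4 m m') :
    av2 (PP (Y r)) (gt r ph m m') = 0 := by
  have hzero : (∀ T2 T1, gt r ph m m' T2 T1 = 0) → av2 (PP (Y r)) (gt r ph m m') = 0 := by
    intro h0
    unfold av2
    simp only [h0, av_const]
  by_cases hm : ∀ p ∈ m.primeFactors, p ≤ Y r
  swap
  · refine hzero fun T2 T1 => ?_
    unfold gt smo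
    rw [if_neg hm, zero_mul, Complex.zero_re]
  by_cases hm' : ∀ p ∈ m'.primeFactors, p ≤ Y r
  swap
  · refine hzero fun T2 T1 => ?_
    unfold gt smo
    rw [if_neg hm', map_zero, mul_zero, Complex.zero_re]
  unfold eq4 at h
  push Not at h
  obtain ⟨p, hp⟩ := h
  have hpS : p ∈ PP (Y r) := by
    rw [mem_PP]
    by_cases h1 : p ∈ m.primeFactors
    · exact ⟨Nat.prime_of_mem_primeFactors h1, hm p h1⟩
    · by_cases h2 : p ∈ m'.primeFactors
      · exact ⟨Nat.prime_of_mem_primeFactors h2, hm' p h2⟩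
      · exfalso
        rw [← Nat.support_factorization, Finsupp.notMem_support_iff] at h1 h2
        rw [h1, h2] at hp
        exact hp rfl
  obtain ⟨S, hS⟩ : ∃ S, S = (PP (Y r)).erase p := ⟨_, rfl⟩
  have hpnS : p ∉ S := by rw [hS]; exact Finset.notMem_erase _ _
  have hins : PP (Y r) = insert p S := by rw [hS, Finset.insert_erase hpS]
  have hG : av2 (PP (Y r)) (gt r ph m m') = av2 (insert p S) (gt r ph m m') := by rw [← hins]
  rw [hG, av2_insert hpnS]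
  have : av2 S (fun T2 T1 => (gt r ph m m' T2 T1 + gt r ph m m' T2 (insert p T1) + gt r ph m m' (insert p T2) T1 +
      gt r ph m m' (insert p T2) (insert p T1)) / 4) = av2 S fun _ _ => 0 := by
    unfold av2
    refine av_congr fun T2 hT2 => av_congr fun T1 hT1 => ?_
    have h2 : p ∉ T2 := fun hh => hpnS (hT2 hh)
    have h1 : p ∉ T1 := fun hh => hpnS (hT1 hh)
    obtain ⟨R, hR⟩ : ∃ R : ℂ, R = ∏ q ∈ S, (fp (tt ph T2) T1 q ^ m.factorization q *
      (starRingEnd ℂ) (fp (tt ph T2) T1 q) ^ m'.factorization q) := ⟨_, rfl⟩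
    have hrest : ∀ T2' T1' : Finset ℕ, (∀ q ∈ S, (q ∈ T2' ↔ q ∈ T2)) → (∀ q ∈ S, (q ∈ T1' ↔ q ∈ T1)) →
        gt r ph m m' T2' T1' = ((fp (tt ph T2') T1' p ^ m.factorization p *
          (starRingEnd ℂ) (fp (tt ph T2') T1' p) ^ m'.factorization p) * R).re := by
      intro T2' T1' g2 g1
      rw [gt_eq ph hm0 hm0' hm hm', hins, Finset.prod_insert hpnS, hR]
      congr 2
      refine Finset.prod_congr rfl fun q hq => ?_
      have : fp (tt ph T2') T1' q = fp (tt ph T2) T1 q := by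
        refine fp_congr ?_ (g1 q hq)
        unfold tt
        by_cases hh : q ∈ T2'
        · rw [if_pos hh, if_pos ((g2 q hq).1 hh)]
        · rw [if_neg hh, if_neg fun h3 => hh ((g2 q hq).2 h3)]
      rw [this]
    have hi : ∀ (T : Finset ℕ), ∀ q ∈ S, (q ∈ insert p T ↔ q ∈ T) := by
      intro T q hq
      rw [Finset.mem_insert]
      constructor
      · rintro (h3 | h3)
        · exact absurd (h3 ▸ hq) hpnS
        · exact h3
      · exact Or.inr
    simp only []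
    rw [hrest T2 T1 (fun _ _ => Iff.rfl) (fun _ _ => Iff.rfl), hrest T2 (insert p T1) (fun _ _ => Iff.rfl) (hi T1),
      hrest (insert p T2) T1 (hi T2) (fun _ _ => Iff.rfl), hrest (insert p T2) (insert p T1) (hi T2) (hi T1),
      fp00 h1 h2, fp10 (Finset.mem_insert_self p T1) h2, fp01 h1 (Finset.mem_insert_self p T2),
      fp11 (Finset.mem_insert_self p T1) (Finset.mem_insert_self p T2)]
    rw [← Complex.add_re, ← Complex.add_re, ← Complex.add_re, ← add_mul, ← add_mul, ← add_mul, fp_four _ _ _ hp, zero_mul,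
      Complex.zero_re, zero_div]
  rw [this]
  unfold av2
  rw [av_const, av_const]

theorem av2_mono {S : Finset ℕ} {F G : Finset ℕ → Finset ℕ → ℝ} (h : ∀ T2 ⊆ S, ∀ T1 ⊆ S, F T2 T1 ≤ G T2 T1) : av2 S F ≤ av2 S G :=
  av_mono fun T2 h2 => av_mono fun T1 h1 => h T2 h2 T1 h1

theorem av2_const (S : Finset ℕ) (c : ℝ) : av2 S (fun _ _ => c) = c := by
  unfold av2
  rw [av_const, av_const]

theorem av2_sum {ι : Type*} (S : Finset ℕ) (s : Finset ι) (F : ι → Finset ℕ → Finset ℕ → ℝ) :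
    av2 S (fun T2 T1 => ∑ i ∈ s, F i T2 T1) = ∑ i ∈ s, av2 S (F i) := by
  unfold av2
  rw [← av_sum]
  refine av_congr fun T2 _ => ?_
  rw [av_sum]

theorem gt_le (r : ℕ) (ph : ℕ → ℝ) (m m' : ℕ) (T2 T1 : Finset ℕ) : gt r ph m m' T2 T1 ≤ 1 := by
  unfold gt
  refine (Complex.re_le_norm _).trans ?_
  rw [norm_mul, Complex.norm_conj]
  have h1 := norm_smo_le (norm_fL_le (tt ph T2) T1) r m
  have h2 := norm_smo_le (norm_fL_le (tt ph T2) T1) r m'
  exact mul_le_one₀ h1 (norm_nonneg _) h2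

theorem normsq_Hc (h : ℕ → ℂ) (n : ℕ) :
    ‖Hc h n‖ ^ 2 = ∑ z ∈ Finset.Icc 1 n ×ˢ Finset.Icc 1 n, (h z.1 * (starRingEnd ℂ) (h z.2)).re := by
  have h1 : ((‖Hc h n‖ ^ 2 : ℝ) : ℂ) = Hc h n * (starRingEnd ℂ) (Hc h n) := by
    rw [Complex.mul_conj, Complex.normSq_eq_norm_sq]
  have h2 : ‖Hc h n‖ ^ 2 = (Hc h n * (starRingEnd ℂ) (Hc h n)).re := by
    rw [← h1, Complex.ofReal_re]
  rw [h2]
  unfold Hc
  rw [map_sum, Finset.sum_mul_sum, ← Finset.sum_product', Complex.re_sum]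

/-- the second moment -/
theorem second (r : ℕ) (ph : ℕ → ℝ) (n : ℕ) :
    av2 (PP (Y r)) (fun T2 T1 => ‖Hc (smo r (fL (tt ph T2) T1)) n‖ ^ 2) ≤ 2 * n := by
  classical
  have h1 : av2 (PP (Y r)) (fun T2 T1 => ‖Hc (smo r (fL (tt ph T2) T1)) n‖ ^ 2) =
      ∑ z ∈ Finset.Icc 1 n ×ˢ Finset.Icc 1 n, av2 (PP (Y r)) (gt r ph z.1 z.2) := by
    rw [← av2_sum]
    simp only [normsq_Hc]
    rfl
  rw [h1]
  refine le_trans ?_ (card_eq4 n)
  rw [Finset.card_filter, Nat.cast_sum]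
  refine Finset.sum_le_sum fun z hz => ?_
  rw [Finset.mem_product, Finset.mem_Icc, Finset.mem_Icc] at hz
  by_cases h : eq4 z.1 z.2
  · rw [if_pos h]
    refine (av2_mono fun T2 _ T1 _ => gt_le r ph z.1 z.2 T2 T1).trans ?_
    rw [av2_const]
    simp
  · rw [if_neg h, gt_orth r ph (by omega) (by omega) h]
    simp

end Pool.Agent.Helper51.IT
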