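import Pool.Agent.Helper51.IT.L2

/-!
# Project IT (MP_a499ba_nt), block F: admissibility of the completely multiplicative model
-/

set_option autoImplicit false

namespace Pool.Agent.Helper51.IT

open Finset MeasureTheory Pool.Agent.IT Pool.Agent.Helper5.RM Pool.Agent.Helper96.AF Pool.Agent.Helper66.LW
open scoped ContDiff

theorem measurable_Ac (h : ℕ → ℂ) : Measurable (Ac h) := by
  unfold Ac
  apply Measurable.mul
  · apply Continuous.measurable
    exact Complex.continuous_ofReal.comp (Real.continuous_exp.comp (by fun_prop))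
  · exact (measurable_from_nat (f := fun n => Hc h n)).comp (Nat.measurable_floor.comp Real.measurable_exp)

theorem normsq_Ac (h : ℕ → ℂ) (v : ℝ) : ‖Ac h v‖ ^ 2 = Real.exp (-v) * ‖Hc h ⌊Real.exp v⌋₊‖ ^ 2 := by
  unfold Ac
  rw [norm_mul, mul_pow, Complex.norm_real, Real.norm_eq_abs, abs_of_pos (Real.exp_pos _), ← Real.exp_nat_mul]
  congr 2
  push_cast
  ring

/-- growth of the partial sums from absolute convergence at `1/4` -/
theorem Ac_le {h : ℕ → ℂ} (hs : Summable fun n : ℕ => ‖h n‖ * (n : ℝ) ^ (-(1 / 4 : ℝ))) :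
    ∃ C : ℝ, 0 ≤ C ∧ ∀ v : ℝ, ‖Ac h v‖ ^ 2 ≤ C * Real.exp (-(v / 2)) := by
  obtain ⟨K, hK⟩ : ∃ K : ℝ, K = ∑' n : ℕ, ‖h n‖ * (n : ℝ) ^ (-(1 / 4 : ℝ)) := ⟨_, rfl⟩
  have hK0 : 0 ≤ K := by rw [hK]; exact tsum_nonneg fun n => by positivity
  have h1 : ∀ n : ℕ, ‖Hc h n‖ ≤ K * (n : ℝ) ^ (1 / 4 : ℝ) := by
    intro n
    unfold Hc
    refine (norm_sum_le _ _).trans ?_
    have h2 : ∀ m ∈ Finset.Icc 1 n, ‖h m‖ ≤ (‖h m‖ * (m : ℝ) ^ (-(1 / 4 : ℝ))) * (n : ℝ) ^ (1 / 4 : ℝ) := by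
      intro m hm
      rw [Finset.mem_Icc] at hm
      have hm0 : (0 : ℝ) < m := by exact_mod_cast hm.1
      have h3 : (m : ℝ) ^ (1 / 4 : ℝ) ≤ (n : ℝ) ^ (1 / 4 : ℝ) := Real.rpow_le_rpow hm0.le (by exact_mod_cast hm.2) (by norm_num)
      have h4 : (m : ℝ) ^ (-(1 / 4 : ℝ)) * (m : ℝ) ^ (1 / 4 : ℝ) = 1 := by
        rw [← Real.rpow_add hm0]; norm_num
      have h5 : 1 ≤ (m : ℝ) ^ (-(1 / 4 : ℝ)) * (n : ℝ) ^ (1 / 4 : ℝ) :=
        h4.symm.le.trans (mul_le_mul_of_nonneg_left h3 (Real.rpow_nonneg hm0.le _))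
      rw [mul_assoc]
      exact le_mul_of_one_le_right (norm_nonneg _) h5
    refine (Finset.sum_le_sum h2).trans ?_
    rw [← Finset.sum_mul]
    refine mul_le_mul_of_nonneg_right ?_ (Real.rpow_nonneg (Nat.cast_nonneg _) _)
    rw [hK]
    exact hs.sum_le_tsum (Finset.Icc 1 n) fun m _ => mul_nonneg (norm_nonneg _) (Real.rpow_nonneg (Nat.cast_nonneg _) _)
  refine ⟨K ^ 2, by positivity, fun v => ?_⟩
  rw [normsq_Ac]
  have h2 : ‖Hc h ⌊Real.exp v⌋₊‖ ≤ K * Real.exp (v / 4) := by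
    refine (h1 _).trans (mul_le_mul_of_nonneg_left ?_ hK0)
    calc ((⌊Real.exp v⌋₊ : ℕ) : ℝ) ^ (1 / 4 : ℝ) ≤ (Real.exp v) ^ (1 / 4 : ℝ) :=
          Real.rpow_le_rpow (Nat.cast_nonneg _) (Nat.floor_le (Real.exp_pos v).le) (by norm_num)
      _ = Real.exp (v / 4) := by
          rw [← Real.exp_mul]; congr 1; ring
  calc Real.exp (-v) * ‖Hc h ⌊Real.exp v⌋₊‖ ^ 2 ≤ Real.exp (-v) * (K * Real.exp (v / 4)) ^ 2 := by gcongr
    _ = K ^ 2 * (Real.exp (-v) * (Real.exp (v / 4) * Real.exp (v / 4))) := by ring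
    _ = K ^ 2 * Real.exp (-(v / 2)) := by
        rw [← Real.exp_add, ← Real.exp_add]
        congr 2
        ring

theorem int_Ac {h : ℕ → ℂ} (hs : Summable fun n : ℕ => ‖h n‖ * (n : ℝ) ^ (-(1 / 4 : ℝ))) :
    IntegrableOn (fun v => ‖Ac h v‖ ^ 2) (Set.Ioi 0) := by
  obtain ⟨C, hC, h1⟩ := Ac_le hs
  have h2 : IntegrableOn (fun v : ℝ => C * Real.exp (-(1 / 2) * v)) (Set.Ioi 0) :=
    (integrableOn_exp_mul_Ioi (by norm_num) 0).const_mul C
  refine h2.mono' ((measurable_Ac h).norm.pow_const 2).aestronglyMeasurable (Filter.Eventually.of_forall fun v => ?_)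
  rw [Real.norm_eq_abs, abs_of_nonneg (by positivity)]
  refine (h1 v).trans (le_of_eq ?_)
  congr 2
  ring

theorem int_Ac' {h : ℕ → ℂ} (hs : Summable fun n : ℕ => ‖h n‖ * (n : ℝ) ^ (-(1 / 4 : ℝ))) {σ : ℝ} (hσ : 0 ≤ σ) :
    IntegrableOn (fun v => ‖Ac h v‖ ^ 2 * Real.exp (-(σ * v))) (Set.Ioi 0) := by
  have h1 := int_Ac hs
  refine Integrable.mono' h1 ?_ ?_
  · exact (((measurable_Ac h).norm.pow_const 2).mul (by fun_prop)).aestronglyMeasurable
  · refine (ae_restrict_iff' measurableSet_Ioi).2 (Filter.Eventually.of_forall fun v hv => ?_)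
    rw [Real.norm_eq_abs, abs_of_nonneg (by positivity)]
    have hv' : (0 : ℝ) < v := hv
    have : Real.exp (-(σ * v)) ≤ 1 := Real.exp_le_one_iff.2 (by have := mul_nonneg hσ hv'.le; linarith)
    exact mul_le_of_le_one_right (by positivity) this

/-! ### averages of integrals -/

theorem av_integral (S : Finset ℕ) (s : Set ℝ) (F : Finset ℕ → ℝ → ℝ) (hF : ∀ T ⊆ S, IntegrableOn (F T) s) :
    av S (fun T => ∫ v in s, F T v) = ∫ v in s, av S (fun T => F T v) := by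
  unfold av
  rw [integral_div, integral_finsetSum]
  intro T hT
  exact hF T (Finset.mem_powerset.1 hT)

theorem av_integrable (S : Finset ℕ) (s : Set ℝ) (F : Finset ℕ → ℝ → ℝ) (hF : ∀ T ⊆ S, IntegrableOn (F T) s) :
    IntegrableOn (fun v => av S (fun T => F T v)) s := by
  unfold av
  refine Integrable.div_const ?_ _
  exact integrable_finsetSum _ fun T hT => hF T (Finset.mem_powerset.1 hT)

theorem av2_integral (S : Finset ℕ) (s : Set ℝ) (F : Finset ℕ → Finset ℕ → ℝ → ℝ) (hF : ∀ T2 ⊆ S, ∀ T1 ⊆ S, IntegrableOn (F T2 T1) s) :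
    av2 S (fun T2 T1 => ∫ v in s, F T2 T1 v) = ∫ v in s, av2 S (fun T2 T1 => F T2 T1 v) := by
  unfold av2
  rw [← av_integral S s _ fun T2 h2 => av_integrable S s _ (hF T2 h2)]
  exact av_congr fun T2 h2 => av_integral S s _ (hF T2 h2)

theorem av2_mul_left (S : Finset ℕ) (c : ℝ) (F : Finset ℕ → Finset ℕ → ℝ) :
    av2 S (fun T2 T1 => c * F T2 T1) = c * av2 S F := by
  unfold av2
  rw [← av_mul_left]
  exact av_congr fun T2 _ => av_mul_left _ _ _

theorem av2_congr {S : Finset ℕ} {F G : Finset ℕ → Finset ℕ → ℝ} (h : ∀ T2 ⊆ S, ∀ T1 ⊆ S, F T2 T1 = G T2 T1) : av2 S F = av2 S G :=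
  av_congr fun T2 h2 => av_congr fun T1 h1 => h T2 h2 T1 h1

/-- Markov's inequality for the double average -/
theorem markov2 {S : Finset ℕ} {F : Finset ℕ → Finset ℕ → ℝ} {c E : ℝ} (hF : ∀ T2 ⊆ S, ∀ T1 ⊆ S, 0 ≤ F T2 T1) (hc : 0 < c)
    (hE : av2 S F ≤ E) : av S (fun T2 => pr S (fun T1 => c ≤ F T2 T1)) ≤ E / c := by
  have h1 : av S (fun T2 => pr S (fun T1 => c ≤ F T2 T1)) ≤ av S (fun T2 => (1 / c) * av S (fun T1 => F T2 T1)) := by
    refine av_mono fun T2 h2 => ?_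
    have := markov (S := S) (F := F T2) (c := c) (E := av S (F T2)) (hF T2 h2) hc le_rfl
    refine this.trans (le_of_eq ?_)
    rw [one_div, div_eq_inv_mul]
  refine h1.trans ?_
  rw [av_mul_left]
  calc 1 / c * av S (fun T2 => av S (fun T1 => F T2 T1)) ≤ 1 / c * E := mul_le_mul_of_nonneg_left hE (by positivity)
    _ = E / c := by ring

/-- the general form: admissibility with high probability from the second moment -/
theorem adm_gen (f : (ℕ → ℝ) → Finset ℕ → ℕ → ℂ) (D : ℕ → (ℕ → ℝ) → Finset ℕ → ℝ → ℂ) (C : ℝ) (hC : 0 < C)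
    (hf : ∀ th T n, ‖f th T n‖ ≤ 1)
    (hsum : ∀ r th T, ∀ a : ℝ, 0 < a → Summable fun n : ℕ => ‖smo r (f th T) n‖ * (n : ℝ) ^ (-a))
    (hsm : ∀ r, 2 ≤ r → ∀ th T, ContDiff ℝ ∞ (D r th T))
    (hD : ∀ r, 2 ≤ r → ∀ th T, ∀ t : ℝ, HasSum (fun n : ℕ => smo r (f th T) n * (n : ℂ) ^ (-(((1 / 2 + sr r : ℝ) : ℂ) + Complex.I * (t : ℂ))))
      (D r th T t))
    (hsec : ∀ r, ∀ ph : ℕ → ℝ, ∀ n : ℕ, av2 (PP (Y r)) (fun T2 T1 => ‖Hc (smo r (f (tt ph T2) T1)) n‖ ^ 2) ≤ C * n) :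
    StmtAd f D := by
  intro η hη
  refine ⟨4 * C / η, by positivity, 2, fun r hr ph => ?_⟩
  have hs0 : 0 < sr r := sr_pos hr
  have hV := Vr_pos r
  have hVle := Vr_le r
  have h2r : (0 : ℝ) < 2 ^ r := by positivity
  have hsA : ∀ th T, Summable fun n : ℕ => ‖smo r (f th T) n‖ * (n : ℝ) ^ (-(1 / 4 : ℝ)) := fun th T => hsum r th T _ (by norm_num)
  have hpt : ∀ v : ℝ, av2 (PP (Y r)) (fun T2 T1 => ‖Ac (smo r (f (tt ph T2) T1)) v‖ ^ 2) ≤ C := by
    intro v
    simp only [normsq_Ac]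
    rw [av2_mul_left]
    calc Real.exp (-v) * av2 (PP (Y r)) (fun T2 T1 => ‖Hc (smo r (f (tt ph T2) T1)) ⌊Real.exp v⌋₊‖ ^ 2)
        ≤ Real.exp (-v) * (C * (⌊Real.exp v⌋₊ : ℕ)) := mul_le_mul_of_nonneg_left (hsec r ph _) (Real.exp_pos _).le
      _ ≤ Real.exp (-v) * (C * Real.exp v) := by
          gcongr
          exact Nat.floor_le (Real.exp_pos v).le
      _ = C := by
          rw [mul_left_comm, ← Real.exp_add]
          simp
  have m0 : av2 (PP (Y r)) (fun T2 T1 => ∫ v in (0 : ℝ)..(2 * Vr r), ‖Ac (smo r (f (tt ph T2) T1)) v‖ ^ 2) ≤ 2 * C * 2 ^ r := by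
    simp only [intervalIntegral.integral_of_le (show (0 : ℝ) ≤ 2 * Vr r by linarith)]
    have hi : ∀ T2 ⊆ PP (Y r), ∀ T1 ⊆ PP (Y r), IntegrableOn (fun v => ‖Ac (smo r (f (tt ph T2) T1)) v‖ ^ 2) (Set.Ioc 0 (2 * Vr r)) :=
      fun T2 _ T1 _ => (int_Ac (hsA _ _)).mono_set Set.Ioc_subset_Ioi_self
    rw [av2_integral _ _ _ hi]
    calc ∫ v in Set.Ioc 0 (2 * Vr r), av2 (PP (Y r)) (fun T2 T1 => ‖Ac (smo r (f (tt ph T2) T1)) v‖ ^ 2)
        ≤ ∫ v in Set.Ioc 0 (2 * Vr r), C := by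
          refine integral_mono ?_ ?_ hpt
          · exact av_integrable _ _ _ fun T2 h2 => av_integrable _ _ _ (hi T2 h2)
          · exact integrable_const C
      _ = 2 * Vr r * C := by
          rw [integral_const, smul_eq_mul, Measure.real, Measure.restrict_apply_univ, Real.volume_Ioc, sub_zero,
            ENNReal.toReal_ofReal (by linarith)]
      _ ≤ 2 * C * 2 ^ r := by nlinarith
  have m1 : av2 (PP (Y r)) (fun T2 T1 => ∫ v in Set.Ioi (0 : ℝ), ‖Ac (smo r (f (tt ph T2) T1)) v‖ ^ 2 * Real.exp (-(sr r * v))) ≤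
      C * 2 ^ r := by
    have hi : ∀ T2 ⊆ PP (Y r), ∀ T1 ⊆ PP (Y r),
        IntegrableOn (fun v => ‖Ac (smo r (f (tt ph T2) T1)) v‖ ^ 2 * Real.exp (-(sr r * v))) (Set.Ioi 0) :=
      fun T2 _ T1 _ => int_Ac' (hsA _ _) hs0.le
    rw [av2_integral _ _ _ hi]
    have hexp : IntegrableOn (fun v : ℝ => C * Real.exp (-(sr r) * v)) (Set.Ioi 0) :=
      (integrableOn_exp_mul_Ioi (by linarith) 0).const_mul C
    calc ∫ v in Set.Ioi (0 : ℝ), av2 (PP (Y r)) (fun T2 T1 => ‖Ac (smo r (f (tt ph T2) T1)) v‖ ^ 2 * Real.exp (-(sr r * v)))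
        ≤ ∫ v in Set.Ioi (0 : ℝ), C * Real.exp (-(sr r) * v) := by
          refine integral_mono ?_ hexp fun v => ?_
          · exact av_integrable _ _ _ fun T2 h2 => av_integrable _ _ _ (hi T2 h2)
          · have h1 : av2 (PP (Y r)) (fun T2 T1 => ‖Ac (smo r (f (tt ph T2) T1)) v‖ ^ 2 * Real.exp (-(sr r * v))) =
                Real.exp (-(sr r * v)) * av2 (PP (Y r)) (fun T2 T1 => ‖Ac (smo r (f (tt ph T2) T1)) v‖ ^ 2) := by
              rw [← av2_mul_left]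
              exact av2_congr fun T2 _ T1 _ => mul_comm _ _
            simp only []
            rw [h1, neg_mul, mul_comm C]
            exact mul_le_mul_of_nonneg_left (hpt v) (Real.exp_pos _).le
      _ = C / sr r := by
          rw [integral_const_mul, integral_exp_mul_Ioi (by linarith) 0]
          simp
          field_simp
      _ ≤ C * 2 ^ r := by
          have h3 : 1 / sr r ≤ 2 ^ r := by
            unfold sr
            rw [one_div_div, div_le_iff₀ (by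
              have : 0 < Real.log r := Real.log_pos (by exact_mod_cast (show 1 < r by omega))
              positivity)]
            have h4 : Real.log 2 ≤ Real.log r := Real.log_le_log (by norm_num) (by exact_mod_cast hr)
            have h5 := Real.log_two_gt_d9
            nlinarith
          calc C / sr r = C * (1 / sr r) := by ring
            _ ≤ _ := mul_le_mul_of_nonneg_left h3 hC.le
  have hB : (0 : ℝ) < 4 * C / η * 2 ^ r := by positivity
  have p0 := markov2 (S := PP (Y r)) (F := fun T2 T1 => ∫ v in (0 : ℝ)..(2 * Vr r), ‖Ac (smo r (f (tt ph T2) T1)) v‖ ^ 2)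
    (c := 4 * C / η * 2 ^ r) (fun T2 _ T1 _ => intervalIntegral.integral_nonneg (by linarith) fun v _ => by positivity) hB m0
  have p1 := markov2 (S := PP (Y r)) (F := fun T2 T1 => ∫ v in Set.Ioi (0 : ℝ), ‖Ac (smo r (f (tt ph T2) T1)) v‖ ^ 2 * Real.exp (-(sr r * v)))
    (c := 4 * C / η * 2 ^ r) (fun T2 _ T1 _ => integral_nonneg fun v => by positivity) hB m1
  have hsplit : av (PP (Y r)) (fun T2 => pr (PP (Y r)) (fun T1 => ¬ AdmC r (smo r (f (tt ph T2) T1)) (D r (tt ph T2) T1) (4 * C / η * 2 ^ r))) ≤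
      av (PP (Y r)) (fun T2 => pr (PP (Y r)) (fun T1 => 4 * C / η * 2 ^ r ≤ ∫ v in (0 : ℝ)..(2 * Vr r), ‖Ac (smo r (f (tt ph T2) T1)) v‖ ^ 2)) +
      av (PP (Y r)) (fun T2 => pr (PP (Y r)) (fun T1 => 4 * C / η * 2 ^ r ≤
        ∫ v in Set.Ioi (0 : ℝ), ‖Ac (smo r (f (tt ph T2) T1)) v‖ ^ 2 * Real.exp (-(sr r * v)))) := by
    rw [← av_add]
    refine av_mono fun T2 _ => pr_le_add fun T1 _ hn => ?_
    by_contra hcon
    push Not at hcon
    apply hn
    exact
      { le_one := norm_smo_le (hf _ _) r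
        summ := hsum r _ _ _ (by linarith)
        smooth := hsm r hr _ _
        hasSum := hD r hr _ _
        int := int_Ac' (hsA _ _) hs0.le
        mass0 := hcon.1.le
        mass1 := hcon.2.le }
  refine hsplit.trans ((add_le_add p0 p1).trans (le_of_lt ?_))
  have e0 : 2 * C * 2 ^ r / (4 * C / η * 2 ^ r) = η / 2 := by field_simp; norm_num
  have e1 : C * 2 ^ r / (4 * C / η * 2 ^ r) = η / 4 := by field_simp
  rw [e0, e1]
  linarith

/-! ### the completely multiplicative model -/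

theorem smooth_DL {r : ℕ} (hr : 0 ≤ sr r) (th : ℕ → ℝ) (T : Finset ℕ) : ContDiff ℝ ∞ (DL r th T) := by
  have heq : DL r th T = fun t : ℝ => ∏ p ∈ PP (Y r), (1 - fp th T p * (p : ℂ) ^ (-(((1 / 2 + sr r : ℝ) : ℂ) + Complex.I * (t : ℂ))))⁻¹ := by
    funext t; rfl
  rw [heq]
  refine contDiff_prod fun p hp => ?_
  have hp1 := (mem_PP.1 hp).1
  have hp0 : (p : ℂ) ≠ 0 := by exact_mod_cast hp1.ne_zero
  refine ContDiff.inv ?_ fun t => ?_
  · refine contDiff_const.sub (contDiff_const.mul ?_)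
    have e1 : (fun t : ℝ => (p : ℂ) ^ (-(((1 / 2 + sr r : ℝ) : ℂ) + Complex.I * (t : ℂ)))) =
        fun t : ℝ => Complex.exp (Complex.log p * (-(((1 / 2 + sr r : ℝ) : ℂ) + Complex.I * (t : ℂ)))) := by
      funext t
      rw [Complex.cpow_def_of_ne_zero hp0]
    rw [e1]
    refine ContDiff.cexp (contDiff_const.mul ((contDiff_const.add (contDiff_const.mul Complex.ofRealCLM.contDiff)).neg))
  · intro h0
    have h1 : fp th T p * (p : ℂ) ^ (-(((1 / 2 + sr r : ℝ) : ℂ) + Complex.I * (t : ℂ))) = 1 := (sub_eq_zero.1 h0).symm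
    have h2 := congrArg norm h1
    rw [norm_mul, norm_fp, one_mul, norm_one, norm_natpow hp1.pos] at h2
    have h3 : ((((1 / 2 + sr r : ℝ) : ℂ) + Complex.I * (t : ℂ))).re = 1 / 2 + sr r := by simp
    rw [h3] at h2
    have h4 : (p : ℝ) ^ (-(1 / 2 + sr r)) < 1 := Real.rpow_lt_one_of_one_lt_of_neg (by exact_mod_cast hp1.one_lt) (by linarith)
    exact absurd h2 h4.ne

/-- block Ad for the completely multiplicative model -/
theorem stmtAd_L : StmtAd fL DL := by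
  refine adm_gen fL DL 2 (by norm_num) norm_fL_le ?_ (fun r hr th T => smooth_DL (sr_pos hr).le th T) ?_ fun r ph n => second r ph n
  · intro r th T a ha
    have h1 := (euler r th T (s := (a : ℂ)) (by simpa using ha)).1
    refine h1.congr fun n => ?_
    rcases Nat.eq_zero_or_pos n with h0 | h0
    · rw [h0, smo_zero]; simp
    · rw [norm_mul, norm_natpow h0, Complex.ofReal_re]
  · intro r hr th T t
    exact (euler r th T (s := (((1 / 2 + sr r : ℝ) : ℂ) + Complex.I * (t : ℂ))) (by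
      have := sr_pos hr
      simp
      linarith)).2

end Pool.Agent.Helper51.IT
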