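import Pool.Agent.Helper95.IT.Lap
import Pool.Agent.Helper71.MR.Uniq

/-!
# Project IT (MP_a499ba_nt), block U: uniqueness for functions of one-sided growth, from the Riemann hypothesis only
-/

set_option autoImplicit false

open Complex Filter Topology MeasureTheory Set
open Pool.Agent.Helper57.Zeta Pool.Agent.Helper71.MR
open scoped FourierTransform

namespace Pool.Agent.Helper51.IT

/-- the half-line transform is holomorphic where the integrand decays -/
theorem half_diff {D : ℝ → ℝ} {A κ : ℝ} (hm : Continuous D) (hκ : 0 ≤ κ)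
    (h2 : ∀ u, 0 ≤ u → |D u| ≤ A * Real.exp (-κ * u)) {z : ℂ} (hz : -κ < z.re) :
    DifferentiableAt ℂ (fun w : ℂ => ∫ s in Ioi (0:ℝ), (D s : ℂ) * cexp (-(w * s))) z := by
  have hA : 0 ≤ A := by
    have := h2 0 le_rfl
    simp only [mul_zero, Real.exp_zero, mul_one] at this
    exact (abs_nonneg _).trans this
  set f : ℝ → ℂ := (Ioi (0:ℝ)).indicator (fun s => (D s : ℂ)) with hf
  have hfb : ∀ t, ‖f t‖ ≤ A := by
    intro t
    by_cases ht : t ∈ Ioi (0:ℝ)
    · have ht0 : (0:ℝ) < t := ht
      rw [hf, indicator_of_mem ht, Complex.norm_real, Real.norm_eq_abs]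
      refine (h2 t ht0.le).trans ?_
      have : Real.exp (-κ * t) ≤ 1 := Real.exp_le_one_iff.mpr (by nlinarith)
      nlinarith
    · rw [hf, indicator_of_notMem ht, norm_zero]
      exact hA
  have hfm : Measurable f := by
    rw [hf]
    exact (Complex.measurable_ofReal.comp hm.measurable).indicator measurableSet_Ioi
  have hlap : (fun w : ℂ => ∫ s in Ioi (0:ℝ), (D s : ℂ) * cexp (-(w * s))) = mellin (fun x => f (-Real.log x)) := by
    funext w
    rw [← lap_eq_mellin]
    unfold lap
    rw [← integral_indicator measurableSet_Ioi]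
    apply integral_congr_ae
    filter_upwards with t
    by_cases ht : t ∈ Ioi (0:ℝ)
    · rw [indicator_of_mem ht, hf, indicator_of_mem ht]
    · rw [indicator_of_notMem ht, hf, indicator_of_notMem ht, zero_mul]
  rw [hlap]
  apply mellin_differentiableAt_of_isBigO_rpow (a := z.re + 1) (b := -κ)
  · have hml : Measurable (fun x : ℝ => f (-Real.log x)) := hfm.comp (Real.measurable_log.neg)
    have hli : LocallyIntegrable (fun x : ℝ => f (-Real.log x)) := by
      refine (locallyIntegrable_const A).mono hml.aestronglyMeasurable ?_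
      filter_upwards with x
      rw [Real.norm_eq_abs, abs_of_nonneg hA]
      exact hfb _
    exact hli.locallyIntegrableOn _
  · apply Asymptotics.IsBigO.of_bound 0
    filter_upwards [eventually_ge_atTop (1:ℝ)] with x hx
    have : f (-Real.log x) = 0 := by
      rw [hf, indicator_of_notMem]
      simp only [mem_Ioi, not_lt]
      linarith [Real.log_nonneg hx]
    rw [this]; simp
  · linarith
  · apply Asymptotics.IsBigO.of_bound A
    have h3 : ∀ᶠ x : ℝ in 𝓝[>] 0, x ∈ Ioo (0:ℝ) 1 := Ioo_mem_nhdsGT one_pos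
    filter_upwards [h3] with x hx
    have hlog : 0 < -Real.log x := by linarith [Real.log_neg hx.1 hx.2]
    rw [hf, indicator_of_mem (by exact hlog), Complex.norm_real, Real.norm_eq_abs]
    refine (h2 _ hlog.le).trans (le_of_eq ?_)
    rw [Real.norm_of_nonneg (Real.rpow_nonneg hx.1.le _), Real.rpow_def_of_pos hx.1]
    congr 2; ring
  · linarith

/-- the transform of the half-line convolution, further to the left -/
theorem lap_Np_ext {D : ℝ → ℝ} {A κ : ℝ} (hm : Continuous D)
    (h2 : ∀ u, 0 ≤ u → |D u| ≤ A * Real.exp (-κ * u)) {z : ℂ} (hz : -κ < z.re) :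
    lap (Np kr D) z = (∫ s in Ioi (0:ℝ), (D s : ℂ) * cexp (-(z * s))) * (1 / 2 * xi (1 / 2 + z)) := by
  set f : ℝ → ℝ := (Ioi (0:ℝ)).indicator D with hf
  have hfe : (fun t : ℝ => (f t : ℂ) * cexp (-(z * t))) = (Ioi (0:ℝ)).indicator (fun s => (D s : ℂ) * cexp (-(z * s))) := by
    funext t
    by_cases ht : t ∈ Ioi (0:ℝ)
    · rw [indicator_of_mem ht, hf, indicator_of_mem ht]
    · rw [indicator_of_notMem ht, hf, indicator_of_notMem ht]; simp
  have hfi : Integrable (fun t : ℝ => (f t : ℂ) * cexp (-(z * t))) := by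
    rw [hfe, integrable_indicator_iff measurableSet_Ioi]
    have h1 : IntegrableOn (fun s : ℝ => A * Real.exp ((-κ - z.re) * s)) (Ioi 0) :=
      (integrableOn_exp_mul_Ioi (by linarith) 0).const_mul A
    refine Integrable.mono' h1 ?_ ?_
    · apply Continuous.aestronglyMeasurable
      fun_prop
    · filter_upwards [self_mem_ae_restrict measurableSet_Ioi] with s hs
      have hs0 : 0 < s := hs
      rw [norm_mul, norm_cexp_neg_mul, Complex.norm_real, Real.norm_eq_abs]
      calc |D s| * Real.exp (-(z.re * s)) ≤ (A * Real.exp (-κ * s)) * Real.exp (-(z.re * s)) :=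
            mul_le_mul_of_nonneg_right (h2 s hs0.le) (Real.exp_pos _).le
        _ = A * Real.exp ((-κ - z.re) * s) := by
            rw [mul_assoc, ← Real.exp_add]; congr 2; ring
  have h := Pool.Agent.Helper95.IT.conv_lap hfi
  have hR : ∫ t : ℝ, (f t : ℂ) * cexp (-(z * t)) = ∫ s in Ioi (0:ℝ), (D s : ℂ) * cexp (-(z * s)) := by
    rw [hfe, integral_indicator measurableSet_Ioi]
  rw [hR] at h
  rw [← h]
  unfold lap
  apply integral_congr_ae
  filter_upwards with y
  congr 1
  unfold Np
  have h4 : ∫ u : ℝ, f (y + u) * kr u = ∫ s : ℝ, f s * kr (s - y) := by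
    rw [← integral_add_left_eq_self (fun s : ℝ => f s * kr (s - y)) y]
    apply integral_congr_ae
    filter_upwards with u
    rw [show y + u - y = u by ring]
  rw [h4, ← integral_complex_ofReal, ← integral_indicator measurableSet_Ioi]
  apply integral_congr_ae
  filter_upwards with s
  by_cases hs : s ∈ Ioi (0:ℝ)
  · rw [indicator_of_mem hs, hf, indicator_of_mem hs]; push_cast; rfl
  · rw [indicator_of_notMem hs, hf, indicator_of_notMem hs]; simp

/-- the uniqueness argument of Helper71.MR.uniq with the entire quotient as an input -/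
theorem uniq_of_quot {D : ℝ → ℝ} {A a : ℝ} (hD : Gr D A a) (ha : 0 ≤ a) (ha1 : a < 1)
    (h0 : ∀ t, ∫ s : ℝ, (D s : ℂ) * (kr (s - t) : ℂ) = 0) {Q : ℂ → ℂ} (hQd : Differentiable ℂ Q)
    (hQ : ∀ z, Q z * (1 / 2 * xi (1 / 2 + z)) = lap (Np kr D) z) (t : ℝ) : D t = 0 := by
  have hk := ker_kr
  have hA := hD.nonneg
  have hf := Np_fast hD ha hk h0
  set F : ℂ → ℂ := fun z => 1 / 2 * xi (1 / 2 + z) with hFdef
  have hFne : ∀ z : ℂ, 1 / 2 ≤ z.re → F z ≠ 0 := by
    intro z hz
    apply mul_ne_zero (by norm_num)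
    apply xi_ne_zero_of_one_le_re
    simp; linarith
  have hFne' : ∀ z : ℂ, z.re ≤ -(1 / 2) → F z ≠ 0 := by
    intro z hz
    apply mul_ne_zero (by norm_num)
    apply xi_ne_zero_of_re_le_zero
    simp; linarith
  have hright : ∀ z : ℂ, 1 ≤ z.re → Q z = ∫ s in Ioi (0:ℝ), (D s : ℂ) * cexp (-(z * s)) := by
    intro z hz
    have h3 := hQ z
    rw [lap_Np hD hk (by linarith)] at h3
    exact mul_right_cancel₀ (hFne z (by linarith)) h3
  have hleft : ∀ z : ℂ, z.re ≤ -1 → Q z = -∫ s in Ioi (0:ℝ), (D (-s) : ℂ) * cexp (-(-z * s)) := by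
    intro z hz
    have h3 := hQ z
    have h4 := lap_Np (z := -z) hD.refl hk (by simp; linarith)
    have h5 : lap (Np kr D) z = -lap (Np kr fun t => D (-t)) (-z) := by
      unfold lap
      rw [← integral_neg, ← integral_neg_eq_self (fun t : ℝ => -(Np kr (fun t => D (-t)) t * cexp (-(-z * t))))]
      apply integral_congr_ae
      filter_upwards with t
      have h6 := Np_add hD ha hk t
      rw [h0] at h6
      have h7 : Np kr D t = -Np kr (fun s => D (-s)) (-t) := by linear_combination h6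
      rw [h7]
      have : cexp (-(-z * ((-t : ℝ) : ℂ))) = cexp (-(z * t)) := by congr 1; push_cast; ring
      rw [this]; ring
    rw [h5, h4] at h3
    have h8 : F z = 1 / 2 * xi (1 / 2 + -z) := by
      simp only [hFdef]
      rw [← xi_one_sub (1 / 2 + z)]; congr 2; ring
    have h9 : Q z * F z = (-∫ s in Ioi (0:ℝ), (D (-s) : ℂ) * cexp (-(-z * s))) * F z := by
      rw [hFdef] at h8 ⊢
      simp only at h8 ⊢
      rw [h3, neg_mul, h8]
    exact mul_right_cancel₀ (hFne' z (by linarith)) h9
  have hbr : ∀ z : ℂ, 1 ≤ z.re → ‖Q z‖ ≤ A / (1 - a) := by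
    intro z hz
    rw [hright z hz]
    refine (half_bd hD (by linarith)).trans ?_
    apply div_le_div_of_nonneg_left hA (by linarith) (by linarith)
  have hbl : ∀ z : ℂ, z.re ≤ -1 → ‖Q z‖ ≤ A / (1 - a) := by
    intro z hz
    rw [hleft z hz, norm_neg]
    refine (half_bd hD.refl (by simp; linarith)).trans ?_
    apply div_le_div_of_nonneg_left hA (by linarith)
    simp; linarith
  obtain ⟨B, hB0, hB⟩ := hf.lap_bd (3 / 2)
  obtain ⟨C, hC0, hC⟩ := growth (Q := fun z => 1 / 2 * Q z) (N := lap (Np kr D)) (hQd.const_mul _)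
    (by intro z; rw [← hQ z]; ring) hB
  have hstrip : ∀ z : ℂ, -1 ≤ z.re → z.re ≤ 1 → ‖Q z‖ ≤ A / (1 - a) := by
    intro z hz1 hz2
    apply PhragmenLindelof.vertical_strip (a := -1) (b := 1) (f := Q) hQd.diffContOnCl
    · refine ⟨1, ?_, C, ?_⟩
      · rw [lt_div_iff₀ (by norm_num)]
        have := Real.pi_gt_three
        linarith
      · apply Asymptotics.IsBigO.of_bound 2
        rw [Filter.Eventually, Filter.mem_inf_principal]
        apply Filter.univ_mem'
        intro z hz
        have hz' : z.re ∈ Ioo (-1:ℝ) 1 := hz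
        have h2 := hC z (by rw [abs_le]; constructor <;> linarith [hz'.1, hz'.2])
        rw [norm_mul] at h2
        have h3 : ‖(1 / 2 : ℂ)‖ = 1 / 2 := by norm_num
        rw [h3] at h2
        show ‖Q z‖ ≤ 2 * ‖Real.exp (C * Real.exp (1 * |z.im|))‖
        rw [Real.norm_of_nonneg (Real.exp_pos _).le]
        have h4 : Real.exp (C * (|z.im| + 1)) ≤ Real.exp (C * Real.exp (1 * |z.im|)) := by
          apply Real.exp_le_exp.mpr
          apply mul_le_mul_of_nonneg_left _ hC0
          rw [one_mul]; exact Real.add_one_le_exp _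
        linarith
    · intro z hz; exact hbl z (by linarith)
    · intro z hz; exact hbr z (by linarith)
    · exact hz1
    · exact hz2
  have hall : ∀ z : ℂ, ‖Q z‖ ≤ A / (1 - a) := by
    intro z
    rcases le_total z.re (-1) with h | h
    · exact hbl z h
    · rcases le_total 1 z.re with h' | h'
      · exact hbr z h'
      · exact hstrip z h h'
  have hbdd : Bornology.IsBounded (range Q) := by
    rw [isBounded_iff_forall_norm_le]
    exact ⟨_, by rintro _ ⟨z, rfl⟩; exact hall z⟩
  have hQ0 : ∀ z, Q z = 0 := by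
    intro z
    by_contra hne
    have hpos : 0 < ‖Q z‖ := norm_pos_iff.mpr hne
    have h2 : ∀ x : ℝ, 1 ≤ x → ‖Q z‖ ≤ A / (x - a) := by
      intro x hx
      rw [hQd.apply_eq_apply_of_bounded hbdd z (x : ℂ), hright (x : ℂ) (by simpa using hx)]
      have := half_bd hD (z := (x : ℂ)) (by simp; linarith)
      simpa using this
    have h3 := h2 (1 + a + 2 * A / ‖Q z‖) (by
      have : 0 ≤ 2 * A / ‖Q z‖ := by positivity
      linarith)
    rw [show 1 + a + 2 * A / ‖Q z‖ - a = 1 + 2 * A / ‖Q z‖ by ring, le_div_iff₀ (by positivity)] at h3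
    have h4 : ‖Q z‖ * (1 + 2 * A / ‖Q z‖) = ‖Q z‖ + 2 * A := by
      field_simp
    rw [h4] at h3
    linarith
  have hpos : ∀ t : ℝ, 0 < t → D t = 0 := by
    intro t ht
    apply zero_of_lap hD ha _ ht
    intro z hz
    rw [← hright z hz, hQ0]
  have hneg : ∀ t : ℝ, 0 < t → D (-t) = 0 := by
    intro t ht
    apply zero_of_lap hD.refl ha _ ht
    intro z hz
    have h2 := hleft (-z) (by simpa using hz)
    rw [hQ0, neg_neg] at h2
    exact neg_eq_zero.mp h2.symm
  rcases lt_trichotomy t 0 with ht | ht | ht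
  · have := hneg (-t) (by linarith)
    rwa [neg_neg] at this
  · rw [ht]
    have h3 : Tendsto D (𝓝[>] 0) (𝓝 (D 0)) := (hD.cont.tendsto 0).mono_left nhdsWithin_le_nhds
    have h4 : Tendsto D (𝓝[>] 0) (𝓝 0) := by
      apply tendsto_const_nhds.congr'
      filter_upwards [self_mem_nhdsWithin] with t ht
      exact (hpos t ht).symm
    exact tendsto_nhds_unique h3 h4
  · exact hpos t ht

theorem xi_ne_left (hRH : ∀ s : ℂ, 1 / 2 < s.re → s ≠ 1 → riemannZeta s ≠ 0) {z : ℂ} (hz : z.re < 0) :
    xi (1 / 2 + z) ≠ 0 := by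
  intro h
  rw [← xi_one_sub] at h
  have hre : (1 - (1 / 2 + z)).re = 1 / 2 - z.re := by simp; ring
  obtain ⟨h1, h2, h3⟩ := xi_eq_zero_iff.mp h
  have hne : (1 - (1 / 2 + z)) ≠ 1 := by
    intro h4
    rw [h4] at h2
    simp at h2
  exact hRH _ (by rw [hre]; linarith) hne h3

/-- block U -/
theorem uniq_kr (hRH : ∀ s : ℂ, 1 / 2 < s.re → s ≠ 1 → riemannZeta s ≠ 0) {D : ℝ → ℝ} {A κ : ℝ} (hm : Continuous D)
    (hκ : 1 / 4 < κ) (_hκ2 : κ < 1 / 2)
    (h1 : ∀ u, u ≤ 0 → |D u| ≤ A * Real.exp (-(3 / 4) * u)) (h2 : ∀ u, 0 ≤ u → |D u| ≤ A * Real.exp (-κ * u))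
    (h3 : ∀ y, ∫ s : ℝ, D (y + s) * kr s = 0) : ∀ u, D u = 0 := by
  have hA : 0 ≤ A := by
    have := h2 0 le_rfl
    simp only [mul_zero, Real.exp_zero, mul_one] at this
    exact (abs_nonneg _).trans this
  have hD : Gr D A (3 / 4) := by
    refine ⟨hm, fun t => ?_⟩
    rcases le_total t 0 with ht | ht
    · refine (h1 t ht).trans (le_of_eq ?_)
      rw [abs_of_nonpos ht]
      congr 2; ring
    · refine (h2 t ht).trans ?_
      apply mul_le_mul_of_nonneg_left _ hA
      apply Real.exp_le_exp.mpr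
      rw [abs_of_nonneg ht]
      nlinarith
  have h0 : ∀ t, ∫ s : ℝ, (D s : ℂ) * (kr (s - t) : ℂ) = 0 := by
    intro t
    have h4 : ∫ s : ℝ, (D s : ℂ) * (kr (s - t) : ℂ) = ((∫ s : ℝ, D s * kr (s - t) : ℝ) : ℂ) := by
      rw [← integral_complex_ofReal]
      apply integral_congr_ae
      filter_upwards with s
      push_cast; rfl
    have h5 : ∫ s : ℝ, D s * kr (s - t) = ∫ s : ℝ, D (t + s) * kr s := by
      rw [← integral_add_left_eq_self (fun s : ℝ => D s * kr (s - t)) t]
      apply integral_congr_ae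
      filter_upwards with u
      rw [show t + u - t = u by ring]
    rw [h4, h5, h3 t, Complex.ofReal_zero]
  have hf := Np_fast hD (by norm_num) ker_kr h0
  set P : ℂ → ℂ := fun w : ℂ => ∫ s in Ioi (0:ℝ), (D s : ℂ) * cexp (-(w * s)) with hP
  set F : ℂ → ℂ := fun z => 1 / 2 * xi (1 / 2 + z) with hF
  have hFd : Differentiable ℂ F := by
    have := differentiable_xi
    intro z
    exact ((this (1 / 2 + z)).comp z (by fun_prop)).const_mul _
  have hFne : ∀ z : ℂ, z.re < 0 → F z ≠ 0 := by
    intro z hz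
    exact mul_ne_zero (by norm_num) (xi_ne_left hRH hz)
  have hr : ∀ z : ℂ, -κ < z.re → P z * F z = lap (Np kr D) z := by
    intro z hz
    rw [lap_Np_ext hm h2 hz]
  set Q : ℂ → ℂ := fun z => if -(1 / 8) < z.re then P z else lap (Np kr D) z / F z with hQ
  have hQ1 : ∀ z : ℂ, -κ < z.re → Q z = P z := by
    intro z hz
    simp only [hQ]
    split_ifs with h
    · rfl
    · have hz0 : z.re < 0 := by linarith
      rw [← hr z hz, mul_div_cancel_right₀ _ (hFne z hz0)]
  have hQ2 : ∀ z : ℂ, z.re < 0 → Q z = lap (Np kr D) z / F z := by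
    intro z hz
    simp only [hQ]
    split_ifs with h
    · rw [← hr z (by linarith), mul_div_cancel_right₀ _ (hFne z hz)]
    · rfl
  have hQd : Differentiable ℂ Q := by
    intro z
    rcases lt_or_ge (-κ) z.re with hz | hz
    · have h5 : DifferentiableAt ℂ P z := half_diff hm (by linarith) h2 hz
      apply h5.congr_of_eventuallyEq
      have : {w : ℂ | -κ < w.re} ∈ 𝓝 z := (isOpen_lt continuous_const Complex.continuous_re).mem_nhds hz
      filter_upwards [this] with w hw
      exact hQ1 w hw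
    · have hz0 : z.re < 0 := by linarith
      have h5 : DifferentiableAt ℂ (fun w => lap (Np kr D) w / F w) z :=
        (hf.lap_diff z).div (hFd z) (hFne z hz0)
      apply h5.congr_of_eventuallyEq
      have : {w : ℂ | w.re < 0} ∈ 𝓝 z := (isOpen_lt Complex.continuous_re continuous_const).mem_nhds hz0
      filter_upwards [this] with w hw
      exact hQ2 w hw
  have hQF : ∀ z, Q z * (1 / 2 * xi (1 / 2 + z)) = lap (Np kr D) z := by
    intro z
    rcases lt_or_ge (-κ) z.re with hz | hz
    · rw [hQ1 z hz]; exact hr z hz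
    · rw [hQ2 z (by linarith)]
      exact div_mul_cancel₀ _ (hFne z (by linarith))
  exact uniq_of_quot hD (by norm_num) (by norm_num) h0 hQd hQF

end Pool.Agent.Helper51.IT
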